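import Pool.Agent.GH.Comb.Defs

/-!
# Ghost conjecture `(2,1)`, combinatorics: strict vertices and hulls of integer sequences
-/

set_option autoImplicit false

namespace GH.Hul

open GH.Comb (IsHull Vtx)

/-- `n` is a strict vertex of `f`: `f n` is strictly below all chords. -/
def SV (f : ℕ → ℤ) (n : ℕ) : Prop :=
  ∀ a b : ℕ, a < n → n < b →
    ((b : ℤ) - a) * f n < ((b : ℤ) - n) * f a + ((n : ℤ) - a) * f b

/-- Consecutive strict vertices. -/
def Cons (f : ℕ → ℤ) (a b : ℕ) : Prop :=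
  a < b ∧ SV f a ∧ SV f b ∧ ∀ n, a < n → n < b → ¬ SV f n

/-- Growth faster than linear. -/
def Grow (f : ℕ → ℤ) : Prop := ∀ C : ℤ, ∃ N : ℕ, ∀ n, N ≤ n → C * n ≤ f n

theorem sv_zero (f : ℕ → ℤ) : SV f 0 := fun _ _ h _ ↦ absurd h (Nat.not_lt_zero _)

/-- A sequence which is eventually above each constant has a first minimiser. -/
theorem exists_first_min (g : ℕ → ℤ) (N : ℕ) (hN : ∀ n, N ≤ n → g 0 ≤ g n) :
    ∃ m, (∀ n, n < m → g m < g n) ∧ ∀ n, g m ≤ g n := by
  classical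
  obtain ⟨m₀, -, hm₀⟩ := Finset.exists_min_image (Finset.range (N + 1)) g ⟨0, by simp⟩
  have hall : ∀ n, g m₀ ≤ g n := by
    intro n
    by_cases hn : n < N + 1
    · exact hm₀ n (Finset.mem_range.2 hn)
    · exact (hm₀ 0 (Finset.mem_range.2 (Nat.succ_pos _))).trans (hN n (by omega))
  have hex : ∃ m, ∀ n, g m ≤ g n := ⟨m₀, hall⟩
  refine ⟨Nat.find hex, fun n hn ↦ ?_, Nat.find_spec hex⟩
  have h1 := Nat.find_min hex hn
  push Not at h1
  obtain ⟨k, hk⟩ := h1
  exact (Nat.find_spec hex k).trans_lt hk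

/-- The first minimiser of `f` minus a linear function is a strict vertex. -/
theorem sv_of_first_min (f : ℕ → ℤ) (d C D : ℤ) (hd : 0 < d) (m : ℕ)
    (h1 : ∀ n : ℕ, n < m → d * f m - (C * m + D) < d * f n - (C * n + D))
    (h2 : ∀ n : ℕ, d * f m - (C * m + D) ≤ d * f n - (C * n + D)) : SV f m := by
  intro a b ha hb
  have h3 := h1 a ha
  have h4 := h2 b
  have ha' : (0 : ℤ) < (m : ℤ) - a := by omega
  have hb' : (0 : ℤ) < (b : ℤ) - m := by omega
  have h5 : ((b : ℤ) - m) * (d * f m - (C * m + D)) < ((b : ℤ) - m) * (d * f a - (C * a + D)) :=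
    mul_lt_mul_of_pos_left h3 hb'
  have h6 : ((m : ℤ) - a) * (d * f m - (C * m + D)) ≤ ((m : ℤ) - a) * (d * f b - (C * b + D)) :=
    mul_le_mul_of_nonneg_left h4 ha'.le
  have h7 : d * (((b : ℤ) - a) * f m) < d * (((b : ℤ) - m) * f a + ((m : ℤ) - a) * f b) := by
    linear_combination h5 + h6
  exact lt_of_mul_lt_mul_left h7 hd.le

theorem sv_unbdd {f : ℕ → ℤ} (hg : Grow f) (n : ℕ) : ∃ m, n ≤ m ∧ SV f m := by
  set C : ℤ := 1 + ∑ k ∈ Finset.range n, |f n - f k| with hC
  obtain ⟨N, hN⟩ := hg (C + |f 0|)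
  obtain ⟨m, hm1, hm2⟩ := exists_first_min (fun k ↦ 1 * f k - (C * k + 0)) (N + 1) (by
    intro k hk
    have h1 := hN k (by omega)
    have h2 : (1 : ℤ) ≤ k := by omega
    have h3 : |f 0| * 1 ≤ |f 0| * k := mul_le_mul_of_nonneg_left h2 (abs_nonneg _)
    have h4 : f 0 ≤ |f 0| := le_abs_self _
    show 1 * f 0 - (C * ((0 : ℕ) : ℤ) + 0) ≤ 1 * f k - (C * k + 0)
    push_cast
    linarith)
  refine ⟨m, ?_, sv_of_first_min f 1 C 0 one_pos m hm1 hm2⟩
  by_contra hlt
  push Not at hlt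
  have h1 := hm2 n
  have h2 : |f n - f m| ≤ ∑ k ∈ Finset.range n, |f n - f k| :=
    Finset.single_le_sum (f := fun k ↦ |f n - f k|) (fun k _ ↦ abs_nonneg _)
      (Finset.mem_range.2 hlt)
  have h3 : f n - f m ≤ |f n - f m| := le_abs_self _
  have h4 : (1 : ℤ) ≤ (n : ℤ) - m := by omega
  have h5 : 0 ≤ ∑ k ∈ Finset.range n, |f n - f k| := Finset.sum_nonneg fun k _ ↦ abs_nonneg _
  have h6 : C * 1 ≤ C * ((n : ℤ) - m) := mul_le_mul_of_nonneg_left h4 (by linarith)
  have h7 : 1 * f m - (C * m + 0) ≤ 1 * f n - (C * n + 0) := h1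
  linarith

theorem exists_cons {f : ℕ → ℤ} (hg : Grow f) (n : ℕ) : ∃ a b, Cons f a b ∧ a ≤ n ∧ n < b := by
  classical
  have hex : ∃ m, n < m ∧ SV f m := by
    obtain ⟨m, hm1, hm2⟩ := sv_unbdd hg (n + 1)
    exact ⟨m, hm1, hm2⟩
  have h1 := Nat.find_spec hex
  have h2 : Nat.findGreatest (SV f) n ≤ n := Nat.findGreatest_le n
  have h3 : SV f (Nat.findGreatest (SV f) n) :=
    Nat.findGreatest_spec (P := SV f) (Nat.zero_le n) (sv_zero f)
  refine ⟨Nat.findGreatest (SV f) n, Nat.find hex, ⟨lt_of_le_of_lt h2 h1.1, h3, h1.2, ?_⟩, h2, h1.1⟩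
  intro k hk1 hk2 hk
  by_cases hkn : k ≤ n
  · exact Nat.findGreatest_is_greatest hk1 hkn hk
  · exact Nat.find_min hex hk2 ⟨by omega, hk⟩

theorem cons_unique {f : ℕ → ℤ} {a b a' b' n : ℕ} (h : Cons f a b) (h' : Cons f a' b')
    (h1 : a ≤ n) (h2 : n < b) (h1' : a' ≤ n) (h2' : n < b') : a = a' ∧ b = b' := by
  obtain ⟨-, ha, hb, hab⟩ := h
  obtain ⟨-, ha', hb', hab'⟩ := h'
  constructor
  · rcases lt_trichotomy a a' with h3 | h3 | h3
    · exact absurd ha' (hab a' h3 (by omega))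
    · exact h3
    · exact absurd ha (hab' a h3 (by omega))
  · rcases lt_trichotomy b b' with h3 | h3 | h3
    · exact absurd hb (hab' b (by omega) h3)
    · exact h3
    · exact absurd hb' (hab b' (by omega) h3)

/-- `f` is above the chord of a block. -/
theorem chord_le {f : ℕ → ℤ} (hg : Grow f) {a b : ℕ} (h : Cons f a b) (n : ℕ) :
    ((b : ℤ) - n) * f a + ((n : ℤ) - a) * f b ≤ ((b : ℤ) - a) * f n := by
  obtain ⟨hlt, ha, hb, hab⟩ := h
  have hd : (0 : ℤ) < (b : ℤ) - a := by omega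
  set d : ℤ := (b : ℤ) - a with hd'
  set C : ℤ := f b - f a with hC
  set D : ℤ := (b : ℤ) * f a - a * f b with hD
  have hlin : ∀ k : ℕ, ((b : ℤ) - k) * f a + ((k : ℤ) - a) * f b = C * k + D := by
    intro k
    rw [hC, hD]
    ring
  obtain ⟨N, hN⟩ := hg (|C| + |d * f 0|)
  obtain ⟨m, hm1, hm2⟩ := exists_first_min (fun k ↦ d * f k - (C * k + D)) (N + 1) (by
    intro k hk
    have h1 := hN k (by omega)
    have h2 : (1 : ℤ) ≤ k := by omega
    have h3 : |d * f 0| * 1 ≤ |d * f 0| * k := mul_le_mul_of_nonneg_left h2 (abs_nonneg _)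
    have h4 : d * f 0 ≤ |d * f 0| := le_abs_self _
    have h5 : C * k ≤ |C| * k := mul_le_mul_of_nonneg_right (le_abs_self _) (by omega)
    have h6 : 0 ≤ f k := by
      have h7 : 0 ≤ |C| := abs_nonneg _
      have h8 : 0 ≤ |d * f 0| := abs_nonneg _
      have h9 : 0 ≤ (|C| + |d * f 0|) * k := by positivity
      linarith
    have h7 : 1 * f k ≤ d * f k := mul_le_mul_of_nonneg_right (by omega) h6
    show d * f 0 - (C * ((0 : ℕ) : ℤ) + D) ≤ d * f k - (C * k + D)
    push_cast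
    linarith)
  have hsv := sv_of_first_min f d C D hd m hm1 hm2
  suffices hmain : 0 ≤ d * f m - (C * m + D) by
    have h1 : d * f m - (C * m + D) ≤ d * f n - (C * n + D) := hm2 n
    rw [hlin]
    linarith
  by_contra hneg
  push Not at hneg
  have hGa : d * f a = C * a + D := by
    rw [← hlin a, hd']
    ring
  have hGb : d * f b = C * b + D := by
    rw [← hlin b, hd']
    ring
  have hma : m ≠ a := by
    rintro rfl
    linarith
  have hmb : m ≠ b := by
    rintro rfl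
    linarith
  rcases Nat.lt_or_ge m a with h1 | h1
  · have h2 := ha m b h1 hlt
    have h3 : (0 : ℤ) < (a : ℤ) - m := by omega
    have h4 : d * (((b : ℤ) - m) * f a) < d * (((b : ℤ) - a) * f m + ((a : ℤ) - m) * f b) :=
      mul_lt_mul_of_pos_left h2 hd
    have h5 : d * (((b : ℤ) - m) * f a) = ((b : ℤ) - m) * (C * a + D) := by
      rw [← hGa]
      ring
    have h6 : d * (((b : ℤ) - a) * f m + ((a : ℤ) - m) * f b) =
        ((b : ℤ) - a) * (d * f m) + ((a : ℤ) - m) * (C * b + D) := by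
      rw [← hGb]
      ring
    rw [h5, h6] at h4
    have h7 : 0 < ((b : ℤ) - a) * (d * f m - (C * m + D)) := by linear_combination h4
    have h8 : ((b : ℤ) - a) * (d * f m - (C * m + D)) < 0 := mul_neg_of_pos_of_neg hd hneg
    linarith
  · rcases Nat.lt_or_ge b m with h1' | h1'
    · have h2 := hb a m hlt h1'
      have h3 : (0 : ℤ) < (m : ℤ) - b := by omega
      have h4 : d * (((m : ℤ) - a) * f b) < d * (((m : ℤ) - b) * f a + ((b : ℤ) - a) * f m) :=
        mul_lt_mul_of_pos_left h2 hd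
      have h5 : d * (((m : ℤ) - a) * f b) = ((m : ℤ) - a) * (C * b + D) := by
        rw [← hGb]
        ring
      have h6 : d * (((m : ℤ) - b) * f a + ((b : ℤ) - a) * f m) =
          ((m : ℤ) - b) * (C * a + D) + ((b : ℤ) - a) * (d * f m) := by
        rw [← hGa]
        ring
      rw [h5, h6] at h4
      have h7 : 0 < ((b : ℤ) - a) * (d * f m - (C * m + D)) := by linear_combination h4
      have h8 : ((b : ℤ) - a) * (d * f m - (C * m + D)) < 0 := mul_neg_of_pos_of_neg hd hneg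
      linarith
    · exact hab m (by omega) (by omega) hsv

/-- `f` is strictly above the chord of a block outside of it. -/
theorem chord_lt {f : ℕ → ℤ} {a b : ℕ} (h : Cons f a b) {n : ℕ} (hn : n < a ∨ b < n) :
    ((b : ℤ) - n) * f a + ((n : ℤ) - a) * f b < ((b : ℤ) - a) * f n := by
  obtain ⟨hlt, ha, hb, -⟩ := h
  rcases hn with hn | hn
  · have h1 := ha n b hn hlt
    linarith
  · have h1 := hb a n hlt hn
    linarith

theorem slope_left {f : ℕ → ℤ} (hg : Grow f) {a b : ℕ} (h : Cons f a b) :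
    f b - f a ≤ ((b : ℤ) - a) * (f (a + 1) - f a) := by
  have h1 := chord_le hg h (a + 1)
  push_cast at h1
  linarith

theorem slope_right {f : ℕ → ℤ} (hg : Grow f) {a b : ℕ} (h : Cons f a b) :
    ((b : ℤ) - a) * (f b - f (b - 1)) ≤ f b - f a := by
  have h1 := chord_le hg h (b - 1)
  have h2 : 1 ≤ b := by have := h.1; omega
  push_cast [Nat.cast_sub h2] at h1
  linarith

/-- slopes of consecutive blocks -/
theorem slope_lt {f : ℕ → ℤ} {a b c : ℕ} {l l' : ℤ} (hab : a < b) (hbc : b < c) (h : SV f b)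
    (h1 : f b = f a + ((b : ℤ) - a) * l) (h2 : f c = f b + ((c : ℤ) - b) * l') : l < l' := by
  have h3 := h a c hab hbc
  have h4 : f a = f b - ((b : ℤ) - a) * l := by linarith
  rw [h2, h4] at h3
  have h5 : 0 < (((c : ℤ) - b) * ((b : ℤ) - a)) * (l' - l) := by linear_combination h3
  have h6 : 0 < ((c : ℤ) - b) * ((b : ℤ) - a) := by
    have h7 : (0 : ℤ) < (c : ℤ) - b := by omega
    have h8 : (0 : ℤ) < (b : ℤ) - a := by omega
    positivity
  have h7 := pos_of_mul_pos_of_pos_left h5 h6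
  linarith
where
  pos_of_mul_pos_of_pos_left {x y : ℤ} (h : 0 < x * y) (hx : 0 < x) : 0 < y := by
    by_contra hy
    push Not at hy
    have := mul_nonpos_of_nonneg_of_nonpos hx.le hy
    linarith

/-- The hull of a sequence whose blocks have integral slopes. -/
theorem exists_hull {f : ℕ → ℤ} (hg : Grow f)
    (hint : ∀ a b, Cons f a b → ((b : ℤ) - a) ∣ f b - f a) :
    ∃ h : ℕ → ℤ, IsHull f h ∧ (∀ n, Vtx h n ↔ SV f n) ∧ ∀ a b, Cons f a b → ∃ l : ℤ,
      f b = f a + ((b : ℤ) - a) * l ∧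
      ∀ n : ℕ, a ≤ n → n ≤ b → h n = f a + ((n : ℤ) - a) * l := by
  classical
  choose A B hAB hA hB using fun n ↦ exists_cons hg n
  choose L hL using fun n ↦ hint _ _ (hAB n)
  set h : ℕ → ℤ := fun n ↦ f (A n) + ((n : ℤ) - A n) * L n with hh
  have hblock : ∀ a b, Cons f a b → ∃ l : ℤ, f b = f a + ((b : ℤ) - a) * l ∧
      ∀ n : ℕ, a ≤ n → n < b → h n = f a + ((n : ℤ) - a) * l := by
    intro a b hab
    have hd : (b : ℤ) - a ≠ 0 := by have := hab.1; omega
    refine ⟨L a, ?_, fun n hn1 hn2 ↦ ?_⟩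
    · obtain ⟨h1, h2⟩ := cons_unique hab (hAB a) le_rfl hab.1 (hA a) (hB a)
      have h3 := hL a
      rw [← h1, ← h2] at h3
      linarith
    · obtain ⟨h1, h2⟩ := cons_unique hab (hAB a) le_rfl hab.1 (hA a) (hB a)
      obtain ⟨h1', h2'⟩ := cons_unique hab (hAB n) hn1 hn2 (hA n) (hB n)
      have h3 := hL a
      have h4 := hL n
      rw [← h1, ← h2] at h3
      rw [← h1', ← h2'] at h4
      have h5 : L n = L a := mul_left_cancel₀ hd (h4.symm.trans h3)
      rw [hh]
      show f (A n) + ((n : ℤ) - A n) * L n = _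
      rw [← h1', h5]
  have hsv : ∀ n, SV f n → h n = f n := by
    intro n hn
    have h1 : A n = n := by
      by_contra hne
      exact (hAB n).2.2.2 n (lt_of_le_of_ne (hA n) hne) (hB n) hn
    rw [hh]
    show f (A n) + ((n : ℤ) - A n) * L n = _
    rw [h1]
    ring
  have hblock' : ∀ a b, Cons f a b → ∃ l : ℤ, f b = f a + ((b : ℤ) - a) * l ∧
      ∀ n : ℕ, a ≤ n → n ≤ b → h n = f a + ((n : ℤ) - a) * l := by
    intro a b hab
    obtain ⟨l, hl1, hl2⟩ := hblock a b hab
    refine ⟨l, hl1, fun n hn1 hn2 ↦ ?_⟩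
    rcases Nat.lt_or_eq_of_le hn2 with h1 | h1
    · exact hl2 n hn1 h1
    · rw [h1, hsv b hab.2.2.1, hl1]
  have hlin : ∀ n, ¬ SV f (n + 1) → 2 * h (n + 1) = h n + h (n + 2) := by
    intro n hn
    have h1 : A (n + 1) ≠ n + 1 := by
      intro h2
      exact hn (h2 ▸ (hAB (n + 1)).2.1)
    have h2 := hA (n + 1)
    have h3 := hB (n + 1)
    obtain ⟨l, -, hl⟩ := hblock' _ _ (hAB (n + 1))
    rw [hl n (by omega) (by omega), hl (n + 1) (by omega) (by omega),
      hl (n + 2) (by omega) (by omega)]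
    push_cast
    ring
  have hstrict : ∀ n, SV f (n + 1) → 2 * h (n + 1) < h n + h (n + 2) := by
    intro n hn
    obtain ⟨l, hl1, hl⟩ := hblock' _ _ (hAB n)
    obtain ⟨l', hl1', hl'⟩ := hblock' _ _ (hAB (n + 1))
    have h2 := hA n
    have h3 := hB n
    have h4 := hA (n + 1)
    have h5 := hB (n + 1)
    have h6 : B n = n + 1 := by
      by_contra hne
      exact (hAB n).2.2.2 (n + 1) (by omega) (by omega) hn
    have h7 : A (n + 1) = n + 1 := by
      by_contra hne
      exact (hAB (n + 1)).2.2.2 (n + 1) (by omega) (by omega) hn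
    rw [h6] at hl1 hl
    rw [h7] at hl1' hl'
    have h8 : l < l' := slope_lt (by omega) (by omega) hn hl1 hl1'
    rw [hl n (by omega) (by omega), hl' (n + 1) (by omega) (by omega),
      hl' (n + 2) (by omega) (by omega), hl1]
    push_cast
    linarith
  refine ⟨h, ⟨fun n ↦ ?_, hsv 0 (sv_zero f), fun n ↦ ?_, fun n hn ↦ ?_, fun n ↦ ?_⟩, fun n ↦ ?_,
    hblock'⟩
  · have h1 := chord_le hg (hAB n) n
    obtain ⟨l, hl1, hl⟩ := hblock' _ _ (hAB n)
    have h2 := hl n (hA n) (hB n).le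
    have hd : (0 : ℤ) < (B n : ℤ) - A n := by have := (hAB n).1; omega
    rw [h2]
    have h3 : ((B n : ℤ) - A n) * (f (A n) + ((n : ℤ) - A n) * l) ≤ ((B n : ℤ) - A n) * f n := by
      refine le_trans (le_of_eq ?_) h1
      rw [hl1]
      ring
    exact le_of_mul_le_mul_left h3 hd
  · by_cases h1 : SV f (n + 1)
    · exact (hstrict n h1).le
    · exact (hlin n h1).le
  · refine hlin n fun h1 ↦ ?_
    rw [hsv _ h1] at hn
    exact lt_irrefl _ hn
  · obtain ⟨m, hm1, hm2⟩ := sv_unbdd hg n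
    exact ⟨m, hm1, hsv m hm2⟩
  · constructor
    · rintro (h1 | h1)
      · rw [h1]
        exact sv_zero f
      · by_contra h2
        rcases Nat.eq_zero_or_pos n with h3 | h3
        · rw [h3] at h2
          exact h2 (sv_zero f)
        · obtain ⟨k, rfl⟩ := Nat.exists_eq_succ_of_ne_zero h3.ne'
          have h4 := hlin k h2
          have h5 : k.succ - 1 = k := rfl
          rw [h5] at h1
          have h6 : 2 * h (k + 1) < h k + h (k + 2) := h1
          linarith
    · intro h1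
      rcases Nat.eq_zero_or_pos n with h3 | h3
      · exact Or.inl h3
      · obtain ⟨k, rfl⟩ := Nat.exists_eq_succ_of_ne_zero h3.ne'
        exact Or.inr (hstrict k h1)

end GH.Hul
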