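import Pool.Agent.GH.Comb.HullGen
import Pool.Agent.GH.Comb.Hull

set_option autoImplicit false

namespace GH.Comb

variable {f : ℕ → ℤ}

theorem isV_iff_sv {n : ℕ} : IsV f n ↔ GH.Hul.SV f n := by
  constructor
  · intro h a b ha hb
    have := h a b ha hb
    linarith
  · intro h a b ha hb
    have := h a b ha hb
    linarith

theorem grow_of_grows (hg : Grows f) : GH.Hul.Grow f := by
  intro C
  obtain ⟨K, hK⟩ := hg (C + 1)
  have h1 : ∀ j : ℕ, f K + (C + 1) * j ≤ f (K + j) := by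
    intro j
    induction j with
    | zero => simp
    | succ j ih =>
      have h2 := hK (K + j) (by omega)
      have h3 : K + (j + 1) = K + j + 1 := rfl
      rw [h3]
      push_cast
      linarith
  refine ⟨K + (|f K| + |C + 1| * K).toNat, fun n hn ↦ ?_⟩
  obtain ⟨j, rfl⟩ := Nat.exists_eq_add_of_le (show K ≤ n by omega)
  have h4 := h1 j
  have h5 : |f K| + |C + 1| * K ≤ j := by
    have h6 : (|f K| + |C + 1| * K).toNat ≤ j := by omega
    have h7 := Int.self_le_toNat (|f K| + |C + 1| * K)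
    omega
  have h6 : -|f K| ≤ f K := neg_abs_le _
  have h7 : C * K ≤ (C + 1) * K := by
    have : (0 : ℤ) ≤ K := by positivity
    linarith
  have h8 : (C + 1) * K ≤ |C + 1| * K :=
    mul_le_mul_of_nonneg_right (le_abs_self _) (by positivity)
  push_cast
  linarith

theorem block_of_cons (hg : Grows f) {a b : ℕ} (h : GH.Hul.Cons f a b) (hab : a + 2 ≤ b) :
    ∃ l : ℚ, Block f a b l := by
  refine block_of_isV hab (isV_iff_sv.2 h.2.1) (isV_iff_sv.2 h.2.2.1) fun k _ _ ↦ ?_
  have h1 := GH.Hul.chord_le (grow_of_grows hg) h k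
  linarith

theorem Block.cons {a b : ℕ} {l : ℚ} (h : Block f a b l) : GH.Hul.Cons f a b :=
  ⟨by have := h.lt; omega, isV_iff_sv.1 h.isV_left, isV_iff_sv.1 h.isV_right,
    fun _ h1 h2 h3 ↦ h.not_isV h1 h2 (isV_iff_sv.2 h3)⟩

theorem block_of_not_isV (hg : Grows f) {n : ℕ} (hn : ¬ IsV f n) :
    ∃ (a b : ℕ) (l : ℚ), a < n ∧ n < b ∧ Block f a b l := by
  obtain ⟨a, b, hab, h1, h2⟩ := GH.Hul.exists_cons (grow_of_grows hg) n
  have h3 : a ≠ n := by
    rintro rfl
    exact hn (isV_iff_sv.2 hab.2.1)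
  obtain ⟨l, hl⟩ := block_of_cons hg hab (by omega)
  exact ⟨a, b, l, by omega, h2, hl⟩

end GH.Comb
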