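import Pool.Agent.GH.Comb.Defs

namespace GH.Comb

theorem F_succ_n (e c : ℤ) (ν n : ℕ) : F e c ν (n + 1) = F e c ν n + inc e c ν ((n : ℤ) + 1) := by
  rw [F, F, Finset.sum_range_succ]

theorem NN_succ_n (e c : ℤ) (s n : ℕ) : NN e c s (n + 1) = NN e c s n + zz e c s ((n : ℤ) + 1) := by
  rw [NN, NN, Finset.sum_range_succ]

theorem F_sub (e c : ℤ) (ν : ℕ) {u v : ℕ} (h : u ≤ v) :
    F e c ν v - F e c ν u = ∑ k ∈ Finset.Ioc u v, inc e c ν (k : ℤ) := by
  induction v, h using Nat.le_induction with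
  | base => simp
  | succ v hv ih =>
    rw [Finset.sum_Ioc_succ_top hv, ← ih, F_succ_n]
    push_cast
    ring

theorem NN_sub (e c : ℤ) (s : ℕ) {u v : ℕ} (h : u ≤ v) :
    NN e c s v - NN e c s u = ∑ k ∈ Finset.Ioc u v, zz e c s (k : ℤ) := by
  induction v, h using Nat.le_induction with
  | base => simp
  | succ v hv ih =>
    rw [Finset.sum_Ioc_succ_top hv, ← ih, NN_succ_n]
    push_cast
    ring

theorem refl_sum (e : ℤ) (ν : ℕ) {m u v : ℕ} (huv : u ≤ v) (hv : v + 1 ≤ m) :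
    (F e m ν v - F e m ν u) + (F e m ν (m - 1 - u) - F e m ν (m - 1 - v))
      = ∑ k ∈ Finset.Ioc u v, gg e m ν (k : ℤ) := by
  induction v, huv using Nat.le_induction with
  | base => simp
  | succ v hv' ih =>
    rw [Finset.sum_Ioc_succ_top hv', ← ih (by omega), F_succ_n, gg]
    obtain ⟨j, hj⟩ : ∃ j, m - 1 - (v + 1) = j := ⟨_, rfl⟩
    have h1 : m - 1 - v = j + 1 := by omega
    rw [hj, h1, F_succ_n]
    have h2 : ((m : ℤ) - ((v + 1 : ℕ) : ℤ)) = (j : ℤ) + 1 := by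
      omega
    rw [h2]
    push_cast
    ring

end GH.Comb
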