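import Pool.Agent.GH.Comb.Floor
import Pool.Agent.GH.Comb.Refl

namespace GH.Comb

theorem ediv_eq_of_between {x y z P : ℤ} (hP : 0 < P) (h : x / P = z / P) (hxy : x ≤ y)
    (hyz : y ≤ z) : y / P = z / P := by
  have h1 : x / P ≤ y / P := Int.ediv_le_ediv hP hxy
  have h2 : y / P ≤ z / P := Int.ediv_le_ediv hP hyz
  omega

theorem neg_sub_one_ediv (x : ℤ) {P : ℤ} (hP : 0 < P) : (-x - 1) / P = -(x / P) - 1 := by
  have h1 := Int.mul_ediv_add_emod x P
  have h2 := Int.emod_nonneg x hP.ne'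
  have h3 := Int.emod_lt_of_pos x hP
  have : -x - 1 = (P - 1 - x % P) + P * (-(x / P) - 1) := by
    have : x = P * (x / P) + x % P := h1.symm
    linear_combination -this
  rw [this, Int.add_mul_ediv_left _ _ hP.ne',
    Int.ediv_eq_zero_of_lt (by omega) (by omega)]
  ring

theorem sign_floor {x Q : ℤ} (h1 : -Q < x - 1 + 1) (h2 : x < Q) (h3 : -Q ≤ x - 1) :
    -(x / Q) - ((x - 1) / Q) = 1 + Int.sign (-x) := by
  have hQ : 0 < Q := by omega
  rcases lt_trichotomy x 0 with h | h | h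
  · have e1 : x / Q = -1 := by
      have : x = (x + Q) + Q * (-1) := by ring
      rw [this, Int.add_mul_ediv_left _ _ hQ.ne', Int.ediv_eq_zero_of_lt (by omega) (by omega)]
      ring
    have e2 : (x - 1) / Q = -1 := by
      have : x - 1 = (x - 1 + Q) + Q * (-1) := by ring
      rw [this, Int.add_mul_ediv_left _ _ hQ.ne', Int.ediv_eq_zero_of_lt (by omega) (by omega)]
      ring
    rw [e1, e2, Int.sign_eq_one_of_pos (by omega)]
    norm_num
  · subst h
    have e2 : ((0 : ℤ) - 1) / Q = -1 := by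
      have : (0 : ℤ) - 1 = (Q - 1) + Q * (-1) := by ring
      rw [this, Int.add_mul_ediv_left _ _ hQ.ne', Int.ediv_eq_zero_of_lt (by omega) (by omega)]
      ring
    rw [e2]
    simp
  · have e1 : x / Q = 0 := Int.ediv_eq_zero_of_lt (by omega) (by omega)
    have e2 : (x - 1) / Q = 0 := Int.ediv_eq_zero_of_lt (by omega) (by omega)
    rw [e1, e2, Int.sign_eq_neg_one_of_neg (by omega)]
    norm_num

theorem zz_block {e : ℤ} {a b s s' : ℕ} {c' : ℤ} (he : e = 0 ∨ e = 1) (hab : a + 2 ≤ b)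
    (hs : 1 ≤ s) (hss : s ≤ s') (hd : (2 ^ s : ℤ) ∣ ((a : ℤ) + b + 1) - c')
    (hnk : XX e ((a : ℤ) + b + 1) b / 2 ^ s = YY e ((a : ℤ) + b + 1) b / 2 ^ s)
    (hlen : 2 * ((b : ℤ) - a) - 2 < 2 ^ s) :
    ∃ σ : ℤ, ∀ k : ℤ, a < k → k ≤ b → zz e c' s' k
      = σ + if (2 ^ s' : ℤ) ∣ ((a : ℤ) + b + 1) - c' then Int.sign ((a : ℤ) + b + 1 - 2 * k)
        else 0 := by
  obtain ⟨r, rfl⟩ := Nat.exists_eq_add_of_le hss
  obtain ⟨s0, rfl⟩ := Nat.exists_eq_add_of_le hs
  obtain ⟨t, ht⟩ := hd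
  set P : ℤ := 2 ^ (1 + s0) with hPdef
  have hPeven : P = 2 * 2 ^ s0 := by rw [hPdef, pow_add, pow_one]
  have hP : 0 < P := by positivity
  set R : ℤ := 2 ^ r with hRdef
  have hR : 0 < R := by positivity
  have hQ : (2 : ℤ) ^ (1 + s0 + r) = P * R := by rw [pow_add]
  have hlen2 : (b : ℤ) - a ≤ 2 ^ s0 := by omega
  have hPle : P ≤ P * R := by nlinarith
  have hc : c' = (a : ℤ) + b + 1 - P * t := by linarith
  rw [XX, YY] at hnk
  -- the two outer floors are constant
  have f1 : ∀ k : ℤ, a < k → k ≤ b →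
      (3 * k - 1 + e - c') / (P * R) = (3 * b - 1 + e - c') / (P * R) := by
    intro k h1 h2
    rw [← Int.ediv_ediv_of_nonneg hP.le, ← Int.ediv_ediv_of_nonneg hP.le]
    congr 1
    have e1 : 3 * k - 1 + e - c' = (3 * k - ((a : ℤ) + b + 1) - 1 + e) + P * t := by
      rw [hc]; ring
    have e2 : 3 * b - 1 + e - c' = (3 * b - ((a : ℤ) + b + 1) - 1 + e) + P * t := by
      rw [hc]; ring
    rw [e1, e2, Int.add_mul_ediv_left _ _ hP.ne', Int.add_mul_ediv_left _ _ hP.ne']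
    congr 1
    exact ediv_eq_of_between hP hnk.symm (by omega) (by omega)
  have f2 : ∀ k : ℤ, a < k → k ≤ b →
      ((3 * k - e) / 2 - c') / (P * R) = ((3 * b - e) / 2 - c') / (P * R) := by
    intro k h1 h2
    have key : ∀ j : ℤ, ((3 * j - e) / 2 - c') / (P * R)
        = (-((2 * ((a : ℤ) + b + 1) - 3 * j - 1 + e) / P) - 1 + 2 * t) / (2 * R) := by
      intro j
      have e1 : (3 * j - e) / 2 - c' = (3 * j - e - 2 * c') / 2 := by omega
      rw [e1, Int.ediv_ediv_of_nonneg (by norm_num : (0 : ℤ) ≤ 2)]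
      have e2 : 2 * (P * R) = P * (2 * R) := by ring
      rw [e2, ← Int.ediv_ediv_of_nonneg hP.le]
      congr 1
      have e3 : 3 * j - e - 2 * c' = (-(2 * ((a : ℤ) + b + 1) - 3 * j - 1 + e) - 1)
          + P * (2 * t) := by
        rw [hc]; ring
      rw [e3, Int.add_mul_ediv_left _ _ hP.ne', neg_sub_one_ediv _ hP]
    rw [key, key]
    have e4 : (2 * ((a : ℤ) + b + 1) - 3 * k - 1 + e) / P
        = (2 * ((a : ℤ) + b + 1) - 3 * b - 1 + e) / P := by
      rw [← hnk]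
      refine ediv_eq_of_between (x := 2 * ((a : ℤ) + b + 1) - 3 * b - 1 + e) hP hnk.symm
        (by omega) (by omega)
    rw [e4]
  rw [hQ]
  by_cases hdvd : P * R ∣ ((a : ℤ) + b + 1) - c'
  · obtain ⟨t', ht'⟩ := hdvd
    refine ⟨(3 * b - 1 + e - c') / (P * R) + ((3 * b - e) / 2 - c') / (P * R) + 1 - 2 * t',
      fun k h1 h2 ↦ ?_⟩
    rw [if_pos ⟨t', ht'⟩, zz, hQ, f1 k h1 h2, f2 k h1 h2]
    have e1 : 2 * k - c' = (2 * k - ((a : ℤ) + b + 1)) + (P * R) * t' := by linarith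
    have e2 : 2 * k - 1 - c' = (2 * k - ((a : ℤ) + b + 1) - 1) + (P * R) * t' := by linarith
    have hPR : P * R ≠ 0 := by positivity
    rw [e1, e2, Int.add_mul_ediv_left _ _ hPR, Int.add_mul_ediv_left _ _ hPR]
    have hsg := sign_floor (x := 2 * k - ((a : ℤ) + b + 1)) (Q := P * R) (by omega) (by omega)
      (by omega)
    have e3 : -(2 * k - ((a : ℤ) + b + 1)) = (a : ℤ) + b + 1 - 2 * k := by ring
    rw [e3] at hsg
    rw [← sub_eq_zero] at hsg ⊢
    linear_combination hsg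
  · refine ⟨(3 * b - 1 + e - c') / (P * R) + ((3 * b - e) / 2 - c') / (P * R) - 2 * (t / R),
      fun k h1 h2 ↦ ?_⟩
    rw [if_neg hdvd, zz, hQ, f1 k h1 h2, f2 k h1 h2]
    have hRt : ¬ R ∣ t := by
      rintro ⟨w, hw⟩
      exact hdvd ⟨w, by rw [ht, hw]; ring⟩
    have key : ∀ x : ℤ, -P ≤ x → x < P → (x + P * t) / (P * R) = t / R := by
      intro x hx1 hx2
      rw [← Int.ediv_ediv_of_nonneg hP.le, Int.add_mul_ediv_left _ _ hP.ne']
      rcases lt_or_ge x 0 with hx | hx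
      · have e1 : x / P = -1 := by
          have : x = (x + P) + P * (-1) := by ring
          rw [this, Int.add_mul_ediv_left _ _ hP.ne',
            Int.ediv_eq_zero_of_lt (by omega) (by omega)]
          ring
        rw [e1]
        have h1 := Int.mul_ediv_add_emod t R
        have h2 := Int.emod_nonneg t hR.ne'
        have h3 := Int.emod_lt_of_pos t hR
        have h4 : t % R ≠ 0 := fun h ↦ hRt (Int.dvd_of_emod_eq_zero h)
        have h5 : -1 + t = (t % R - 1) + R * (t / R) := by linarith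
        rw [h5, Int.add_mul_ediv_left _ _ hR.ne', Int.ediv_eq_zero_of_lt (by omega) (by omega)]
        ring
      · rw [Int.ediv_eq_zero_of_lt hx hx2, zero_add]
    have e1 : 2 * k - c' = (2 * k - ((a : ℤ) + b + 1)) + P * t := by linarith
    have e2 : 2 * k - 1 - c' = (2 * k - ((a : ℤ) + b + 1) - 1) + P * t := by linarith
    rw [e1, e2, key _ (by omega) (by omega), key _ (by omega) (by omega)]
    ring

/-- On a block `N` of a class is linear, or linear plus the tent `min (n - a) (b - n)`. -/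
theorem NN_block {e : ℤ} {a b s s' : ℕ} {c' : ℤ} (he : e = 0 ∨ e = 1) (hab : a + 2 ≤ b)
    (hs : 1 ≤ s) (hss : s ≤ s') (hd : (2 ^ s : ℤ) ∣ ((a : ℤ) + b + 1) - c')
    (hnk : XX e ((a : ℤ) + b + 1) b / 2 ^ s = YY e ((a : ℤ) + b + 1) b / 2 ^ s)
    (hlen : 2 * ((b : ℤ) - a) - 2 < 2 ^ s) :
    ∃ σ : ℤ, ∀ n : ℕ, a ≤ n → n ≤ b → NN e c' s' n = NN e c' s' a + σ * ((n : ℤ) - a)
      + if (2 ^ s' : ℤ) ∣ ((a : ℤ) + b + 1) - c' then min ((n : ℤ) - a) ((b : ℤ) - n) else 0 := by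
  obtain ⟨σ, hσ⟩ := zz_block he hab hs hss hd hnk hlen
  refine ⟨σ, fun n h1 ↦ ?_⟩
  induction n, h1 using Nat.le_induction with
  | base =>
    intro _
    have : min ((a : ℤ) - a) ((b : ℤ) - a) = 0 := by omega
    rw [this]
    simp
  | succ n hn ih =>
    intro h2
    rw [NN_succ_n, ih (by omega), hσ ((n : ℤ) + 1) (by omega) (by omega)]
    split_ifs with hdv
    · have : Int.sign ((a : ℤ) + b + 1 - 2 * ((n : ℤ) + 1))
          = min (((n + 1 : ℕ) : ℤ) - a) ((b : ℤ) - ((n + 1 : ℕ) : ℤ))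
            - min ((n : ℤ) - a) ((b : ℤ) - n) := by
        rcases lt_trichotomy ((a : ℤ) + b + 1 - 2 * ((n : ℤ) + 1)) 0 with h | h | h
        · rw [Int.sign_eq_neg_one_of_neg h]
          push_cast
          omega
        · rw [h, Int.sign_zero]
          push_cast
          omega
        · rw [Int.sign_eq_one_of_pos h]
          push_cast
          omega
      rw [this]
      push_cast
      ring
    · push_cast
      ring

end GH.Comb
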