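import Pool.Agent.GH.Comb.Centre2
import Pool.Agent.GH.Comb.HullBlk
import Pool.Agent.GH.Comb.Lin

namespace GH.Comb

/-- The data of a block with integer slope, in integers. -/
theorem Block.int_data {f : ℕ → ℤ} {a b : ℕ} {z : ℤ} (hB : Block f a b (z : ℚ)) :
    f b = f a + z * ((b : ℤ) - a) ∧ ∀ k : ℕ, f a + z * ((k : ℤ) - a) ≤ f k := by
  refine ⟨?_, fun k => ?_⟩
  · have h := hB.eq
    exact_mod_cast h
  · have h := hB.ge k
    exact_mod_cast h

/-- (K3b): a strict vertex of the child is a strict vertex of the parent. -/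
theorem isV_par {e : ℤ} (he : e = 0 ∨ e = 1) {c : ℤ} {ν : ℕ} (hST : ST e c ν) {n : ℕ}
    (h : IsV (F e c (ν + 1)) n) : IsV (F e c ν) n := by
  by_contra hn
  obtain ⟨a, b, l, han, hnb, hB⟩ := block_of_not_isV (grows_F he c ν) hn
  obtain ⟨⟨z, rfl⟩, s, hs⟩ := hST a b l hB
  obtain ⟨σ, hσ⟩ := NN_block (c' := c) (s' := ν + 1) he hB.lt hs.one
    (hs.le.trans (Nat.le_succ ν)) hs.dvd hs.nk hs.len
  obtain ⟨hb, hge⟩ := hB.int_data
  have h1 := h a b han hnb
  have han' : (a : ℤ) < n := by exact_mod_cast han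
  have hnb' : (n : ℤ) < b := by exact_mod_cast hnb
  have e1 := hσ n han.le hnb.le
  have e2 := hσ b (han.le.trans hnb.le) le_rfl
  have hge' := hge n
  rw [F_succ, F_succ, F_succ] at h1
  obtain ⟨T, hT⟩ : ∃ T : ℤ, T = if (2 ^ (ν + 1) : ℤ) ∣ ((a : ℤ) + b + 1) - c then
    min ((n : ℤ) - a) ((b : ℤ) - n) else 0 := ⟨_, rfl⟩
  have hT0 : 0 ≤ T := by
    rw [hT]
    split_ifs
    · exact le_min (by omega) (by omega)
    · exact le_rfl
  have e3 : (if (2 ^ (ν + 1) : ℤ) ∣ ((a : ℤ) + b + 1) - c then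
    min ((b : ℤ) - a) ((b : ℤ) - b) else 0) = 0 := by
    split_ifs
    · rw [sub_self]
      exact min_eq_right (by omega)
    · rfl
  rw [← hT] at e1
  rw [e3, add_zero] at e2
  rw [e1, e2, hb] at h1
  nlinarith [mul_nonneg (sub_nonneg.2 hge') (by omega : (0 : ℤ) ≤ (b : ℤ) - n),
    mul_nonneg (sub_nonneg.2 hge') (by omega : (0 : ℤ) ≤ (n : ℤ) - a),
    mul_nonneg hT0 (by omega : (0 : ℤ) ≤ (b : ℤ) - n),
    mul_nonneg hT0 (by omega : (0 : ℤ) ≤ (n : ℤ) - a)]

theorem st_ediv_sub_one {P x : ℤ} (hP : 0 < P) (h : ¬ P ∣ x) : x / P = (x - 1) / P := by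
  have h1 : x % P ≠ 0 := fun h2 => h (Int.dvd_of_emod_eq_zero h2)
  have h2 := Int.emod_nonneg x hP.ne'
  have h3 := Int.emod_lt_of_pos x hP
  have h4 := Int.emod_add_mul_ediv x P
  symm
  have h5 : (x - 1) / P = x / P ∧ (x - 1) % P = x % P - 1 := by
    rw [Int.ediv_emod_unique hP]
    refine ⟨by linarith, by omega, by omega⟩
  exact h5.1

/-- No point of the class `c mod 2^s` in `[2a+2, 2b]`: `zz` is nondecreasing on `(a, b]`. -/
theorem zz_mono {e c : ℤ} {s a b : ℕ}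
    (hno : ∀ m : ℤ, 2 * (a : ℤ) + 2 ≤ m → m ≤ 2 * b → ¬ (2 ^ s : ℤ) ∣ m - c) {k : ℤ}
    (h1 : a < k) (h2 : k < b) : zz e c s k ≤ zz e c s (k + 1) := by
  have hP : (0 : ℤ) < 2 ^ s := by positivity
  have a1 := st_ediv_sub_one hP (hno (2 * k + 2) (by omega) (by omega))
  have a2 := st_ediv_sub_one hP (hno (2 * k + 1) (by omega) (by omega))
  have a3 := st_ediv_sub_one hP (hno (2 * k) (by omega) (by omega))
  have b1 : (3 * k - 1 + e - c) / 2 ^ s ≤ (3 * (k + 1) - 1 + e - c) / 2 ^ s :=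
    Int.ediv_le_ediv hP (by omega)
  have b2 : ((3 * k - e) / 2 - c) / 2 ^ s ≤ ((3 * (k + 1) - e) / 2 - c) / 2 ^ s :=
    Int.ediv_le_ediv hP (by omega)
  unfold zz
  have c1 : 2 * (k + 1) - c = 2 * k + 2 - c := by ring
  have c2 : 2 * (k + 1) - 1 - c = 2 * k + 1 - c := by ring
  have c3 : 2 * k + 2 - c - 1 = 2 * k + 1 - c := by ring
  have c4 : 2 * k + 1 - c - 1 = 2 * k - c := by ring
  have c5 : 2 * k - c - 1 = 2 * k - 1 - c := by ring
  rw [c3] at a1
  rw [c4] at a2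
  rw [c5] at a3
  rw [c1, c2]
  linarith

theorem st_zz_mono' {e c : ℤ} {s a b : ℕ}
    (hno : ∀ m : ℤ, 2 * (a : ℤ) + 2 ≤ m → m ≤ 2 * b → ¬ (2 ^ s : ℤ) ∣ m - c) {i : ℕ}
    (hi : a < i) : ∀ j : ℕ, i ≤ j → j ≤ b → zz e c s (i : ℤ) ≤ zz e c s (j : ℤ) := by
  intro j hij
  induction j, hij using Nat.le_induction with
  | base => intro _; exact le_rfl
  | succ j hj ih =>
    intro hb
    have h1 := ih (by omega)
    have h2 := zz_mono (e := e) hno (k := (j : ℤ)) (by exact_mod_cast (hi.trans_le hj))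
      (by exact_mod_cast hb)
    push_cast
    exact h1.trans h2

/-- Hence `NN` lies on or below its chord on `[a, b]`. -/
theorem NN_convex {e c : ℤ} {s a b : ℕ}
    (hno : ∀ m : ℤ, 2 * (a : ℤ) + 2 ≤ m → m ≤ 2 * b → ¬ (2 ^ s : ℤ) ∣ m - c) {k : ℕ}
    (h1 : a ≤ k) (h2 : k ≤ b) :
    (NN e c s k - NN e c s a) * ((b : ℤ) - a) ≤ (NN e c s b - NN e c s a) * ((k : ℤ) - a) := by
  rcases Nat.eq_or_lt_of_le h1 with h | h
  · subst h
    simp
  have s1 := NN_sub e c s h1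
  have s2 := NN_sub e c s h2
  have b1 : ∑ j ∈ Finset.Ioc a k, zz e c s (j : ℤ) ≤ ((k : ℤ) - a) * zz e c s (k : ℤ) := by
    have h3 : ∑ j ∈ Finset.Ioc a k, zz e c s (j : ℤ) ≤
        (Finset.Ioc a k).card • zz e c s (k : ℤ) := by
      refine Finset.sum_le_card_nsmul _ _ _ fun j hj => ?_
      rw [Finset.mem_Ioc] at hj
      exact st_zz_mono' hno hj.1 k hj.2 h2
    rw [Nat.card_Ioc, nsmul_eq_mul, Nat.cast_sub h1] at h3
    exact h3
  have b2 : ((b : ℤ) - k) * zz e c s (k : ℤ) ≤ ∑ j ∈ Finset.Ioc k b, zz e c s (j : ℤ) := by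
    have h3 : (Finset.Ioc k b).card • zz e c s (k : ℤ) ≤
        ∑ j ∈ Finset.Ioc k b, zz e c s (j : ℤ) := by
      refine Finset.card_nsmul_le_sum _ _ _ fun j hj => ?_
      rw [Finset.mem_Ioc] at hj
      exact st_zz_mono' hno h j hj.1.le hj.2
    rw [Nat.card_Ioc, nsmul_eq_mul, Nat.cast_sub h2] at h3
    exact h3
  rw [← s1] at b1
  rw [← s2] at b2
  have c1 : (0 : ℤ) ≤ (k : ℤ) - a := by omega
  have c2 : (0 : ℤ) ≤ (b : ℤ) - k := by omega
  have d1 := mul_le_mul_of_nonneg_right b1 c2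
  have d2 := mul_le_mul_of_nonneg_right b2 c1
  nlinarith

/-- The structure theorem at a block whose class at level `ν` contains a point of
`[2a+2, 2b]`. -/
theorem st_top {e : ℤ} (he : e = 0 ∨ e = 1) {c : ℤ} {ν a b : ℕ} {l : ℚ}
    (hB : Block (F e c ν) a b l) {m : ℤ} (h1 : 2 * (a : ℤ) + 2 ≤ m) (h2 : m ≤ 2 * b)
    (hd : (2 ^ ν : ℤ) ∣ m - c) : (∃ z : ℤ, l = z) ∧ BStr e c ν a b ν := by
  obtain ⟨m, rfl⟩ : ∃ m' : ℕ, m = m' := ⟨m.toNat, by omega⟩
  have hF : F e c ν = F e m ν := funext fun n => F_congr hd n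
  have hB' : Block (F e m ν) a b l := hF ▸ hB
  have g1 := centre_gt he hB' (by omega) (by omega)
  have g2 := centre_lt he hB' (by omega) (by omega)
  have hm : a + b + 1 = m := le_antisymm g1 g2
  have hm' : (a : ℤ) + b + 1 = m := by exact_mod_cast hm
  obtain ⟨hz, hnk, hlen⟩ := block_centre he hB' hm
  refine ⟨hz, ?_⟩
  exact { one := (Block.len he hB).1
          le := le_rfl
          dvd := by rw [hm']; exact hd
          max := Or.inl rfl
          nk := by rw [hm']; exact hnk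
          len := hlen }

/-- One step down: if the class `c mod 2^(ν+1)` does not meet `[2a+2, 2b]` then a block
`(a, b)` at `ν + 1` is a block at `ν`. -/
theorem block_down {e : ℤ} (he : e = 0 ∨ e = 1) {c : ℤ} {ν a b : ℕ} {l : ℚ} (hST : ST e c ν)
    (hB : Block (F e c (ν + 1)) a b l)
    (hno : ∀ m : ℤ, 2 * (a : ℤ) + 2 ≤ m → m ≤ 2 * b → ¬ (2 ^ (ν + 1) : ℤ) ∣ m - c) :
    ∃ l' : ℚ, Block (F e c ν) a b l' := by
  refine block_of_isV hB.lt (isV_par he hST hB.isV_left) (isV_par he hST hB.isV_right) ?_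
  intro k hak hkb
  have hab := hB.lt
  have n1 := NN_convex (e := e) hno hak.le hkb.le
  have hQ : ((F e c (ν + 1) b - F e c (ν + 1) a : ℤ) : ℚ) * ((k : ℚ) - a) ≤
      ((F e c (ν + 1) k - F e c (ν + 1) a : ℤ) : ℚ) * ((b : ℚ) - a) := by
    have h1 := hB.eq
    have h2 := hB.ge k
    have h3 : (0 : ℚ) < (b : ℚ) - a := by
      have : (a : ℚ) < b := by exact_mod_cast (by omega : a < b)
      linarith
    push_cast
    rw [h1]
    have h4 := mul_le_mul_of_nonneg_right h2 h3.le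
    nlinarith
  have hZ : (F e c (ν + 1) b - F e c (ν + 1) a) * ((k : ℤ) - a) ≤
      (F e c (ν + 1) k - F e c (ν + 1) a) * ((b : ℤ) - a) := by
    exact_mod_cast hQ
  rw [F_succ, F_succ, F_succ] at hZ
  linarith

/-- The structure theorem. -/
theorem st_all {e : ℤ} (he : e = 0 ∨ e = 1) (c : ℤ) (ν : ℕ) : ST e c ν := by
  induction ν with
  | zero =>
    intro a b l hB
    have := (Block.len he hB).1
    omega
  | succ ν ih =>
    intro a b l hB
    by_cases hex : ∃ m : ℤ, 2 * (a : ℤ) + 2 ≤ m ∧ m ≤ 2 * b ∧ (2 ^ (ν + 1) : ℤ) ∣ m - c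
    · obtain ⟨m, h1, h2, h3⟩ := hex
      obtain ⟨hz, hs⟩ := st_top he hB h1 h2 h3
      exact ⟨hz, ν + 1, hs⟩
    · have hno : ∀ m : ℤ, 2 * (a : ℤ) + 2 ≤ m → m ≤ 2 * b → ¬ (2 ^ (ν + 1) : ℤ) ∣ m - c :=
        fun m h1 h2 h3 => hex ⟨m, h1, h2, h3⟩
      obtain ⟨l', hB'⟩ := block_down he ih hB hno
      obtain ⟨⟨z', rfl⟩, s, hs⟩ := ih a b l' hB'
      have hab := hB.lt
      obtain ⟨σ, hσ⟩ := NN_block (c' := c) (s' := ν + 1) he hB.lt hs.one
        (hs.le.trans (Nat.le_succ ν)) hs.dvd hs.nk hs.len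
      have e2 := hσ b (by omega) le_rfl
      have e3 : (if (2 ^ (ν + 1) : ℤ) ∣ ((a : ℤ) + b + 1) - c then
        min ((b : ℤ) - a) ((b : ℤ) - b) else 0) = 0 := by
        split_ifs
        · rw [sub_self]
          exact min_eq_right (by omega)
        · rfl
      rw [e3, add_zero] at e2
      refine ⟨⟨z' + σ, ?_⟩, s, ?_⟩
      · have h1 := hB.eq
        have h2 := hB'.eq
        rw [F_succ, F_succ, e2] at h1
        push_cast at h1 ⊢
        have h3 : (0 : ℚ) < (b : ℚ) - a := by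
          have : (a : ℚ) < b := by exact_mod_cast (by omega : a < b)
          linarith
        have h4 : (l - (z' + σ)) * ((b : ℚ) - a) = 0 := by linarith
        rcases mul_eq_zero.1 h4 with h5 | h5
        · linarith
        · exact absurd h5 h3.ne'
      · refine { one := hs.one, le := hs.le.trans (Nat.le_succ ν), dvd := hs.dvd, max := Or.inr ?_,
                 nk := hs.nk, len := hs.len }
        rcases hs.max with h | h
        · rw [h]
          exact hno _ (by omega) (by omega)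
        · exact h

end GH.Comb
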