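import Pool.Agent.GH.Comb.HullEx
import Pool.Agent.GH.Comb.STproof

namespace GH.Comb

/-- The hull. -/
noncomputable def H (e c : ℤ) (ν : ℕ) : ℕ → ℤ :=
  open Classical in
  if h : ∃ h : ℕ → ℤ, IsHull (F e c ν) h ∧ (∀ n, IsV (F e c ν) n → h n = F e c ν n) ∧
    (∀ n, Vtx h n ↔ IsV (F e c ν) n) ∧
      ∀ (a b : ℕ) (l : ℚ), Block (F e c ν) a b l → ∀ k : ℕ, a ≤ k → k ≤ b →
        (h k : ℚ) = F e c ν a + l * ((k : ℚ) - a) then h.choose else 0

theorem H_spec {e : ℤ} (he : e = 0 ∨ e = 1) (c : ℤ) (ν : ℕ) :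
    IsHull (F e c ν) (H e c ν) ∧ (∀ n, IsV (F e c ν) n → H e c ν n = F e c ν n) ∧
    (∀ n, Vtx (H e c ν) n ↔ IsV (F e c ν) n) ∧
      ∀ (a b : ℕ) (l : ℚ), Block (F e c ν) a b l → ∀ k : ℕ, a ≤ k → k ≤ b →
        (H e c ν k : ℚ) = F e c ν a + l * ((k : ℚ) - a) := by
  have hex := exists_hull (grows_F he c ν) (fun a b l hB => (st_all he c ν a b l hB).1)
  have hH : H e c ν = hex.choose := by
    unfold H
    exact dif_pos hex
  rw [hH]
  exact hex.choose_spec

theorem isHull_H {e : ℤ} (he : e = 0 ∨ e = 1) (c : ℤ) (ν : ℕ) : IsHull (F e c ν) (H e c ν) :=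
  (H_spec he c ν).1

/-! ### convex sequences -/

/-- the slopes of a convex sequence increase -/
theorem K_slope {h : ℕ → ℤ} (hc : ∀ n, 2 * h (n + 1) ≤ h n + h (n + 2)) {i j : ℕ} (hij : i ≤ j) :
    h (i + 1) - h i ≤ h (j + 1) - h j := by
  induction j, hij using Nat.le_induction with
  | base => exact le_refl _
  | succ j _ ih =>
    have h1 := hc j
    have h2 : h (j + 1 + 1) = h (j + 2) := rfl
    rw [h2]
    linarith

theorem K_ge {h : ℕ → ℤ} (hc : ∀ n, 2 * h (n + 1) ≤ h n + h (n + 2)) {i j : ℕ} (hij : i ≤ j)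
    {q : ℤ} (hq : q ≤ h (i + 1) - h i) : h i + q * ((j : ℤ) - i) ≤ h j := by
  induction j, hij using Nat.le_induction with
  | base => simp
  | succ j hj ih =>
    have h1 := K_slope hc hj
    push_cast
    linarith

theorem K_le {h : ℕ → ℤ} (hc : ∀ n, 2 * h (n + 1) ≤ h n + h (n + 2)) {i j : ℕ} (hij : i ≤ j)
    {p : ℤ} (hp : ∀ k, k + 1 = j → h (k + 1) - h k ≤ p) : h j ≤ h i + p * ((j : ℤ) - i) := by
  obtain ⟨d, rfl⟩ := Nat.exists_eq_add_of_le hij
  clear hij
  induction d generalizing p with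
  | zero => simp
  | succ d ih =>
    have h1 := hp (i + d) (by ring)
    have h2 : ∀ k, k + 1 = i + d → h (k + 1) - h k ≤ p := by
      intro k hk
      exact (K_slope hc (show k ≤ i + d by omega)).trans h1
    have h3 := ih h2
    have h4 : h (i + (d + 1)) = h (i + d + 1) := rfl
    rw [h4]
    push_cast at h3 ⊢
    linarith

/-- the first slope is at most the slope of the chord -/
theorem K_chord {h : ℕ → ℤ} (hc : ∀ n, 2 * h (n + 1) ≤ h n + h (n + 2)) {n b : ℕ} (hnb : n < b)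
    {L : ℤ} (hb : h b ≤ h n + L * ((b : ℤ) - n)) : h (n + 1) ≤ h n + L := by
  by_contra hcon
  push Not at hcon
  have h1 := K_ge hc hnb.le (q := L + 1) (by linarith)
  have h2 : (0 : ℤ) < (b : ℤ) - n := by
    have : (n : ℤ) < b := by exact_mod_cast hnb
    linarith
  linarith

/-- The data of a block of the child `(c, ν + 1)`: integer slopes of the child and of the chord
of the parent, and the form of `NN`. -/
theorem block_data {e : ℤ} (he : e = 0 ∨ e = 1) {c : ℤ} {ν a b : ℕ} {l : ℚ}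
    (hB : Block (F e c (ν + 1)) a b l) :
    ∃ L' σ θ : ℤ, (θ = 0 ∨ θ = 1) ∧ l = L' + σ ∧
      F e c ν b = F e c ν a + L' * ((b : ℤ) - a) ∧
      ∀ n : ℕ, a ≤ n → n ≤ b → F e c (ν + 1) n = F e c ν n + NN e c (ν + 1) a
        + σ * ((n : ℤ) - a) + θ * min ((n : ℤ) - a) ((b : ℤ) - n) := by
  classical
  obtain ⟨⟨z, hz⟩, s, hs⟩ := st_all he c (ν + 1) a b l hB
  obtain ⟨σ, hσ⟩ := NN_block he hB.lt hs.one hs.le hs.dvd hs.nk hs.len
  have hab : a ≤ b := by have := hB.lt; omega
  have key : ∀ n : ℕ, a ≤ n → n ≤ b → F e c (ν + 1) n = F e c ν n + NN e c (ν + 1) a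
        + σ * ((n : ℤ) - a) + (if (2 ^ (ν + 1) : ℤ) ∣ ((a : ℤ) + b + 1) - c then 1 else 0) *
          min ((n : ℤ) - a) ((b : ℤ) - n) := by
    intro n h1 h2
    rw [F_succ, hσ n h1 h2]
    split_ifs <;> ring
  refine ⟨z - σ, σ, if (2 ^ (ν + 1) : ℤ) ∣ ((a : ℤ) + b + 1) - c then 1 else 0, ?_, ?_, ?_, key⟩
  · split_ifs
    · exact Or.inr rfl
    · exact Or.inl rfl
  · rw [hz]
    push_cast
    ring
  · have h1 := key a le_rfl hab
    have h2 := key b hab le_rfl
    have h3 : F e c (ν + 1) b = F e c (ν + 1) a + z * ((b : ℤ) - a) := by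
      have h4 := hB.eq
      rw [hz] at h4
      exact_mod_cast h4
    have h5 : min ((a : ℤ) - a) ((b : ℤ) - a) = 0 := by
      rw [sub_self]
      exact min_eq_left (by have : (a : ℤ) ≤ b := by exact_mod_cast hab
                            linarith)
    have h6 : min ((b : ℤ) - a) ((b : ℤ) - b) = 0 := by
      rw [sub_self]
      exact min_eq_right (by have : (a : ℤ) ≤ b := by exact_mod_cast hab
                             linarith)
    rw [h5] at h1
    rw [h6] at h2
    linarith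

theorem K3b {e : ℤ} (he : e = 0 ∨ e = 1) {c : ℤ} {ν n : ℕ} (h : Vtx (H e c (ν + 1)) n) :
    Vtx (H e c ν) n :=
  ((H_spec he c ν).2.2.1 n).2
    (isV_par he (st_all he c ν) (((H_spec he c (ν + 1)).2.2.1 n).1 h))

/-- a strict vertex `n` followed by a point which is not a strict vertex starts a block -/
theorem K_block {e : ℤ} (he : e = 0 ∨ e = 1) {c : ℤ} {ν n : ℕ} (h1 : IsV (F e c ν) n)
    (h2 : ¬ IsV (F e c ν) (n + 1)) : ∃ (b : ℕ) (l : ℚ), n + 1 < b ∧ Block (F e c ν) n b l := by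
  obtain ⟨a, b, l, ha, hb, hB⟩ := block_of_not_isV (grows_F he c ν) h2
  have h3 : a = n := by
    by_contra hne
    exact hB.not_isV (show a < n by omega) (show n < b by omega) h1
  subst h3
  exact ⟨b, l, hb, hB⟩

theorem K1 {e : ℤ} (he : e = 0 ∨ e = 1) {c : ℤ} {ν n : ℕ} (h : Vtx (H e c (ν + 1)) n) :
    F e c ν (n + 1) - H e c ν (n + 1) ≤ F e c (ν + 1) (n + 1) - H e c (ν + 1) (n + 1) := by
  classical
  obtain ⟨hc, hcV, hcVt, hcB⟩ := H_spec he c (ν + 1)
  obtain ⟨hp, hpV, hpVt, hpB⟩ := H_spec he c ν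
  have hvc : IsV (F e c (ν + 1)) n := (hcVt n).1 h
  have hvp : IsV (F e c ν) n := (hpVt n).1 (K3b he h)
  by_cases hn : IsV (F e c ν) (n + 1)
  · have h1 := hpV _ hn
    have h2 := hc.le (n + 1)
    linarith
  · obtain ⟨b, l, hb, hB⟩ := K_block he hvp hn
    obtain ⟨⟨z, hz⟩, s, hs⟩ := st_all he c ν n b l hB
    obtain ⟨σ, hσ⟩ := NN_block he hB.lt hs.one (s' := ν + 1) (hs.le.trans (Nat.le_succ ν)) hs.dvd
      hs.nk hs.len
    have hnb : (n : ℤ) < b := by exact_mod_cast (show n < b by omega)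
    have e1 := hσ b (by omega) le_rfl
    have e2 := hσ (n + 1) (by omega) hb.le
    have h6 : min ((b : ℤ) - n) ((b : ℤ) - b) = 0 := by
      rw [sub_self]
      exact min_eq_right (by linarith)
    rw [h6, ite_self] at e1
    have h7 : (0 : ℤ) ≤ min (((n + 1 : ℕ) : ℤ) - n) ((b : ℤ) - ((n + 1 : ℕ) : ℤ)) := by
      refine le_min (by push_cast; linarith) ?_
      have : ((n + 1 : ℕ) : ℤ) ≤ b := by exact_mod_cast hb.le
      linarith
    have h8 : (0 : ℤ) ≤ if (2 ^ (ν + 1) : ℤ) ∣ ((n : ℤ) + b + 1) - c then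
        min (((n + 1 : ℕ) : ℤ) - n) ((b : ℤ) - ((n + 1 : ℕ) : ℤ)) else 0 := by
      split_ifs
      · exact h7
      · exact le_rfl
    -- the chord of the parent
    have h3 : F e c ν b = F e c ν n + z * ((b : ℤ) - n) := by
      have h4 := hB.eq
      rw [hz] at h4
      exact_mod_cast h4
    have h9 : H e c (ν + 1) (n + 1) ≤ H e c (ν + 1) n + (z + σ) := by
      refine K_chord hc.conv (show n < b by omega) ?_
      have h10 := hc.le b
      rw [hcV n hvc]
      rw [F_succ] at h10 ⊢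
      linarith
    have h11 : H e c ν (n + 1) = F e c ν n + z := by
      have h12 := hpB n b l hB (n + 1) (by omega) hb.le
      rw [hz] at h12
      have h13 : (H e c ν (n + 1) : ℚ) = ((F e c ν n + z : ℤ) : ℚ) := by
        rw [h12]
        push_cast
        ring
      exact_mod_cast h13
    rw [hcV n hvc] at h9
    rw [h11]
    rw [F_succ] at h9
    rw [F_succ e c ν (n + 1)]
    push_cast at e2
    have h14 : σ * ((n : ℤ) + 1 - n) = σ := by ring
    push_cast at h8
    linarith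

/-- A convex integer valued sequence vanishing at `a` and `b`, with a strict vertex `n` in
between. -/
theorem hhat {h : ℕ → ℤ} {a b n : ℕ} (hc : ∀ n, 2 * h (n + 1) ≤ h n + h (n + 2)) {L : ℤ}
    (han : a < n) (hnb : n < b) (hb : h b = h a + L * ((b : ℤ) - a))
    (hn : 2 * h n < h (n - 1) + h (n + 1)) :
    h n ≤ h a + L * ((n : ℤ) - a) - min ((n : ℤ) - a) ((b : ℤ) - n) ∧
      h (n + 1) ≤ h a + L * ((n : ℤ) + 1 - a) + 1 - min ((n : ℤ) + 1 - a) ((b : ℤ) - n - 1) := by
  have m1 := min_le_left ((n : ℤ) - a) ((b : ℤ) - n)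
  have m2 := min_le_right ((n : ℤ) - a) ((b : ℤ) - n)
  have m3 := min_le_left ((n : ℤ) + 1 - a) ((b : ℤ) - n - 1)
  have m4 := min_le_right ((n : ℤ) + 1 - a) ((b : ℤ) - n - 1)
  by_cases hq : L + 1 ≤ h (n + 1) - h n
  · have h1 := K_ge hc hnb.le hq
    have h2 := K_ge hc (show n + 1 ≤ b by omega) (q := L + 1)
      (hq.trans (K_slope hc (Nat.le_succ n)))
    push_cast at h2
    constructor
    · nlinarith
    · nlinarith
  · push Not at hq
    have hp : h n - h (n - 1) ≤ L - 1 := by omega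
    have h1 : h n ≤ h a + (L - 1) * ((n : ℤ) - a) := by
      refine K_le hc han.le fun k hk => ?_
      have h2 : k = n - 1 := by omega
      subst h2
      rw [hk]
      exact hp
    constructor
    · nlinarith
    · nlinarith

theorem K3a {e : ℤ} (he : e = 0 ∨ e = 1) {c : ℤ} {ν n : ℕ} (h : Vtx (H e c ν) n) :
    H e c (ν + 1) n = F e c (ν + 1) n := by
  obtain ⟨hc, hcV, hcVt, hcB⟩ := H_spec he c (ν + 1)
  obtain ⟨hp, hpV, hpVt, hpB⟩ := H_spec he c ν
  have hvp : IsV (F e c ν) n := (hpVt n).1 h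
  by_cases hn : IsV (F e c (ν + 1)) n
  · exact hcV n hn
  · obtain ⟨a, b, l, han, hnb, hB⟩ := block_of_not_isV (grows_F he c (ν + 1)) hn
    obtain ⟨L, σ, θ, hθ, hl, hLb, hk⟩ := block_data he hB
    have hva := hpV a (isV_par he (st_all he c ν) hB.isV_left)
    have hvb := hpV b (isV_par he (st_all he c ν) hB.isV_right)
    have hstr : 2 * H e c ν n < H e c ν (n - 1) + H e c ν (n + 1) := by
      rcases h with h | h
      · omega
      · exact h
    obtain ⟨h1, -⟩ := hhat hp.conv han hnb (L := L) (by rw [hva, hvb]; exact hLb) hstr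
    have h2 := hcB a b l hB n han.le hnb.le
    have h3 : H e c (ν + 1) n = F e c (ν + 1) a + (L + σ) * ((n : ℤ) - a) := by
      rw [hl] at h2
      exact_mod_cast h2
    have h4 := hk n han.le hnb.le
    have h5 := hk a le_rfl (han.le.trans hnb.le)
    have hab : (a : ℤ) ≤ b := by exact_mod_cast (han.le.trans hnb.le)
    have h6 : min ((a : ℤ) - a) ((b : ℤ) - a) = 0 := by
      rw [sub_self]
      exact min_eq_left (by linarith)
    rw [h6] at h5
    have h7 := hc.le n
    have h8 : (0 : ℤ) ≤ min ((n : ℤ) - a) ((b : ℤ) - n) := by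
      have e1 : (a : ℤ) < n := by exact_mod_cast han
      have e2 : (n : ℤ) < b := by exact_mod_cast hnb
      exact le_min (by linarith) (by linarith)
    rw [hva] at h1
    rw [hpV n hvp] at h1
    rcases hθ with rfl | rfl <;> nlinarith

theorem K2 {e : ℤ} (he : e = 0 ∨ e = 1) {c : ℤ} {ν n : ℕ} (h : Vtx (H e c ν) n) :
    F e c (ν + 1) (n + 1) - H e c (ν + 1) (n + 1) ≤ F e c ν (n + 1) - H e c ν (n + 1) + 1 := by
  obtain ⟨hc, hcV, hcVt, hcB⟩ := H_spec he c (ν + 1)
  obtain ⟨hp, hpV, hpVt, hpB⟩ := H_spec he c ν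
  have hvp : IsV (F e c ν) n := (hpVt n).1 h
  have hp1 := hp.le (n + 1)
  by_cases hn1 : IsV (F e c (ν + 1)) (n + 1)
  · rw [hcV _ hn1]
    linarith
  by_cases hn : IsV (F e c (ν + 1)) n
  · obtain ⟨b, l, hb, hB⟩ := K_block he hn hn1
    obtain ⟨L, σ, θ, hθ, hl, hLb, hk⟩ := block_data he hB
    have hnb : (n : ℤ) < b := by exact_mod_cast (show n < b by omega)
    have h2 := hcB n b l hB (n + 1) (by omega) hb.le
    have h3 : H e c (ν + 1) (n + 1) = F e c (ν + 1) n + (L + σ) := by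
      rw [hl] at h2
      have h13 : (H e c (ν + 1) (n + 1) : ℚ) = ((F e c (ν + 1) n + (L + σ) : ℤ) : ℚ) := by
        rw [h2]
        push_cast
        ring
      exact_mod_cast h13
    have h4 := hk (n + 1) (by omega) hb.le
    have h5 := hk n le_rfl (by omega)
    have h6 : min ((n : ℤ) - n) ((b : ℤ) - n) = 0 := by
      rw [sub_self]
      exact min_eq_left (by linarith)
    rw [h6] at h5
    have h7 : H e c ν (n + 1) ≤ H e c ν n + L := by
      refine K_chord hp.conv (show n < b by omega) ?_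
      rw [hpV n hvp, ← hLb]
      exact hp.le b
    rw [hpV n hvp] at h7
    have m1 := min_le_left (((n + 1 : ℕ) : ℤ) - n) ((b : ℤ) - ((n + 1 : ℕ) : ℤ))
    push_cast at h4 m1
    rw [h3, h4, h5]
    rcases hθ with rfl | rfl <;> nlinarith
  · obtain ⟨a, b, l, han, hnb, hB⟩ := block_of_not_isV (grows_F he c (ν + 1)) hn
    obtain ⟨L, σ, θ, hθ, hl, hLb, hk⟩ := block_data he hB
    have hva := hpV a (isV_par he (st_all he c ν) hB.isV_left)
    have hvb := hpV b (isV_par he (st_all he c ν) hB.isV_right)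
    have hstr : 2 * H e c ν n < H e c ν (n - 1) + H e c ν (n + 1) := by
      rcases h with h | h
      · omega
      · exact h
    obtain ⟨-, h1⟩ := hhat hp.conv han hnb (L := L) (by rw [hva, hvb]; exact hLb) hstr
    have h2 := hcB a b l hB (n + 1) (by omega) (by omega)
    have h3 : H e c (ν + 1) (n + 1) = F e c (ν + 1) a + (L + σ) * ((n : ℤ) + 1 - a) := by
      rw [hl] at h2
      push_cast at h2
      exact_mod_cast h2
    have h4 := hk (n + 1) (by omega) (by omega)
    have h5 := hk a le_rfl (han.le.trans hnb.le)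
    have hab : (a : ℤ) ≤ b := by exact_mod_cast (han.le.trans hnb.le)
    have h6 : min ((a : ℤ) - a) ((b : ℤ) - a) = 0 := by
      rw [sub_self]
      exact min_eq_left (by linarith)
    rw [h6] at h5
    have h8 : (0 : ℤ) ≤ min ((n : ℤ) + 1 - a) ((b : ℤ) - n - 1) := by
      have e1 : (a : ℤ) < n := by exact_mod_cast han
      have e2 : (n : ℤ) + 1 ≤ b := by exact_mod_cast (show n + 1 ≤ b by omega)
      exact le_min (by linarith) (by linarith)
    have h9 : (b : ℤ) - ((n + 1 : ℕ) : ℤ) = (b : ℤ) - n - 1 := by push_cast; ring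
    rw [h9] at h4
    push_cast at h4
    rw [hva] at h1
    rw [h3, h4, h5]
    rcases hθ with rfl | rfl <;> nlinarith

end GH.Comb
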