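import Pool.Agent.GH.Comb.FloorG
import Pool.Agent.GH.Comb.Refl

namespace GH.Comb

/-- At the leaf `m` the hull is a line of slope `2m-1+e` on `[t, m-1-t]`, `t = ⌊(m-e)/3⌋`. -/
theorem leafF {e : ℤ} (he : e = 0 ∨ e = 1) {m t : ℕ} (ht : ((m : ℤ) - e) / 3 = t)
    (hm : 2 * t + 1 ≤ m) : ∃ K : ℕ, ∀ ν : ℕ, K ≤ ν →
      F e m ν (m - 1 - t) - F e m ν t = (2 * m - 1 + e) * ((m : ℤ) - 1 - 2 * t) := by
  refine ⟨m + 2, fun ν hν => ?_⟩
  have h1 := refl_sum e ν (m := m) (u := t) (v := m - 1 - t) (by omega) (by omega)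
  have h2 : m - 1 - (m - 1 - t) = t := by omega
  rw [h2] at h1
  have hN : (m : ℤ) + 3 < 2 ^ (ν + 1) := by
    have h3 : ν + 1 < 2 ^ (ν + 1) := Nat.lt_two_pow_self
    have h4 : m + 3 < 2 ^ (ν + 1) := by omega
    exact_mod_cast h4
  have h3 : ∀ k ∈ Finset.Ioc t (m - 1 - t), gg e m ν (k : ℤ) = 4 * m - 2 + 2 * e := by
    intro k hk
    obtain ⟨hk1, hk2⟩ := Finset.mem_Ioc.1 hk
    have hX0 : 0 ≤ XX e m k := by unfold XX; omega
    have hY0 : 0 ≤ YY e m k := by unfold YY; omega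
    have hXY : XX e m k + YY e m k = m - 2 + 2 * e := by unfold XX YY; ring
    have hX : XX e m k / 2 ^ (ν + 1) = 0 :=
      Int.ediv_eq_zero_of_lt hX0 (by rcases he with rfl | rfl <;> linarith)
    have hY : YY e m k / 2 ^ (ν + 1) = 0 :=
      Int.ediv_eq_zero_of_lt hY0 (by rcases he with rfl | rfl <;> linarith)
    rw [gg_eq he, hX, hY]
    ring
  rw [Finset.sum_congr rfl h3, Finset.sum_const, Nat.card_Ioc, nsmul_eq_mul] at h1
  have h4 : ((m - 1 - t - t : ℕ) : ℤ) = (m : ℤ) - 1 - 2 * t := by omega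
  rw [h4] at h1
  linarith

end GH.Comb
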