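import Pool.Agent.GH.Cen.Defs
import Pool.Agent.GH.Comb.K
import Pool.Agent.GH.Comb.Leaf

namespace GH.Comb

theorem br_ediv_sub {P : ℤ} (hP : 0 < P) (x : ℤ) :
    x / P - (x - 1) / P = if P ∣ x then 1 else 0 := by
  have h1 := Int.mul_ediv_add_emod x P
  have h2 := Int.emod_lt_of_pos x hP
  have h3 := Int.emod_nonneg x hP.ne'
  split_ifs with h
  · have h4 : x % P = 0 := Int.emod_eq_zero_of_dvd h
    have h5 : (x - 1) / P < x / P := by
      rw [Int.ediv_lt_iff_lt_mul hP]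
      nlinarith
    have h6 : x / P - 1 ≤ (x - 1) / P := by
      rw [Int.le_ediv_iff_mul_le hP]
      nlinarith
    omega
  · have h4 : x % P ≠ 0 := fun h0 => h (Int.dvd_of_emod_eq_zero h0)
    have h5 : (x - 1) / P ≤ x / P := Int.ediv_le_ediv hP (by omega)
    have h6 : x / P ≤ (x - 1) / P := by
      rw [Int.le_ediv_iff_mul_le hP]
      have : 1 ≤ x % P := by omega
      nlinarith
    omega

theorem br_cnt {P : ℤ} (hP : 0 < P) (c a : ℤ) (n : ℕ) :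
    ∑ m ∈ Finset.Icc a (a - 1 + n), (if P ∣ m - c then (1 : ℤ) else 0)
      = (a - 1 + n - c) / P - (a - 1 - c) / P := by
  induction n with
  | zero =>
    have : Finset.Icc a (a - 1 + ((0 : ℕ) : ℤ)) = ∅ := Finset.Icc_eq_empty (by push_cast; omega)
    rw [this]
    simp
  | succ n ih =>
    have h1 : Finset.Icc a (a - 1 + ((n + 1 : ℕ) : ℤ)) = insert (a + n) (Finset.Icc a (a - 1 + n)) := by
      ext x
      simp only [Finset.mem_Icc, Finset.mem_insert]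
      push_cast
      omega
    rw [h1, Finset.sum_insert (by simp only [Finset.mem_Icc]; omega), ih,
      ← br_ediv_sub hP (a + n - c)]
    have e1 : a + (n : ℤ) - c - 1 = a - 1 + n - c := by ring
    have e2 : a - 1 + ((n + 1 : ℕ) : ℤ) - c = a + n - c := by push_cast; ring
    rw [e1, e2]
    ring

theorem br_tau (ν : ℕ) (c m : ℤ) : (Cen.tau 2 ν c m : ℤ)
    = ∑ s ∈ Finset.Icc 1 ν, if (2 : ℤ) ^ s ∣ m - c then (1 : ℤ) else 0 := by
  unfold Cen.tau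
  rw [Finset.card_filter]
  push_cast
  rfl

/-- Sum of the `tau` over an interval. -/
theorem sum_tau (ν : ℕ) (c : ℤ) {a b : ℤ} (hab : a ≤ b + 1) :
    ∑ m ∈ Finset.Icc a b, (Cen.tau 2 ν c m : ℤ)
      = ∑ s ∈ Finset.Icc 1 ν, ((b - c) / 2 ^ s - (a - 1 - c) / 2 ^ s) := by
  obtain ⟨n, hn⟩ : ∃ n : ℕ, b = a - 1 + n := ⟨(b - a + 1).toNat, by omega⟩
  subst hn
  rw [Finset.sum_congr rfl fun m _ => br_tau ν c m, Finset.sum_comm]
  exact Finset.sum_congr rfl fun s _ => br_cnt (by positivity) c a n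

theorem sum_tau_nat (ν : ℕ) (c : ℤ) {a b : ℕ} (hab : a ≤ b + 1) :
    ∑ m ∈ Finset.Icc a b, (Cen.tau 2 ν c (m : ℤ) : ℤ)
      = ∑ s ∈ Finset.Icc 1 ν, (((b : ℤ) - c) / 2 ^ s - ((a : ℤ) - 1 - c) / 2 ^ s) := by
  rw [← sum_tau ν c (by omega : (a : ℤ) ≤ b + 1)]
  refine Finset.sum_bij (fun m _ => (m : ℤ)) ?_ ?_ ?_ ?_
  · intro m hm
    rw [Finset.mem_Icc] at hm ⊢
    omega
  · intro x _ y _ h
    exact_mod_cast h
  · intro z hz
    rw [Finset.mem_Icc] at hz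
    refine ⟨z.toNat, ?_, ?_⟩
    · rw [Finset.mem_Icc]
      omega
    · omega
  · intro m _
    rfl

theorem inc_eq {e : ℕ} (he : e ≤ 1) (ν : ℕ) (c : ℤ) {k : ℕ} (hk : 1 ≤ k) :
    Cen.inc e ν c k = inc (e : ℤ) c ν (k : ℤ) := by
  unfold Cen.inc inc
  rw [sum_tau_nat ν c (by omega : 2 * k + 1 ≤ 3 * k - 1 + e + 1),
    sum_tau_nat ν c (by omega : (3 * k - e) / 2 + 1 ≤ 2 * k - 1 + 1), add_sub_assoc,
    ← Finset.sum_sub_distrib]
  have e1 : ((3 * k - 1 + e : ℕ) : ℤ) = 3 * k - 1 + e := by omega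
  have e2 : ((2 * k + 1 : ℕ) : ℤ) - 1 = 2 * k := by push_cast; ring
  have e3 : ((2 * k - 1 : ℕ) : ℤ) = 2 * k - 1 := by omega
  have e4 : (((3 * k - e) / 2 + 1 : ℕ) : ℤ) - 1 = (3 * k - e) / 2 := by omega
  have e5 : (((k + e) / 2 : ℕ) : ℤ) = ((k : ℤ) + e) / 2 := by push_cast; rfl
  rw [e5]
  congr 1
  refine Finset.sum_congr rfl fun s _ => ?_
  rw [e1, e2, e3, e4]
  unfold zz
  ring

theorem f_eq {e : ℕ} (he : e ≤ 1) (ν : ℕ) (c : ℤ) (n : ℕ) :
    Cen.f e ν c n = F (e : ℤ) c ν n := by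
  unfold Cen.f F
  induction n with
  | zero => simp
  | succ n ih =>
    rw [Finset.sum_Icc_succ_top (by omega), Finset.sum_range_succ, ih,
      inc_eq he ν c (by omega)]
    push_cast
    rfl

/-- The combinatorial input. -/
theorem comb {e : ℕ} (he : e ≤ 1) : ∃ H, Cen.KProps (Cen.f e) H := by
  have he' : (e : ℤ) = 0 ∨ (e : ℤ) = 1 := by omega
  have hf : Cen.f e = fun ν c n => F (e : ℤ) c ν n := by
    funext ν c n
    exact f_eq he ν c n
  rw [hf]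
  refine ⟨fun ν c => GH.Comb.H e c ν, ?_⟩
  constructor
  · intro ν c
    obtain ⟨h1, h2, h3, h4, h5⟩ := isHull_H he' c ν
    exact ⟨h1, h2, h3, h4, h5⟩
  · intro ν c n h
    exact K1 he' h
  · intro ν c n h
    exact K2 he' h
  · intro ν c n h
    exact K3a he' h
  · intro ν c n h
    exact K3b he' h

/-- The leaf. -/
theorem leaf {e : ℕ} (he : e ≤ 1) {m : ℕ} (hm : 2 * Cen.tm e m + 1 ≤ m) :
    ∃ K : ℕ, ∀ ν : ℕ, K ≤ ν →
      Cen.f e ν m (m - 1 - Cen.tm e m) - Cen.f e ν m (Cen.tm e m)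
        = (Cen.sig e m : ℤ) * ((m : ℤ) - 1 - 2 * Cen.tm e m) := by
  have he' : (e : ℤ) = 0 ∨ (e : ℤ) = 1 := by omega
  have ht : ((m : ℤ) - e) / 3 = (Cen.tm e m : ℕ) := by
    unfold Cen.tm
    omega
  obtain ⟨K, hK⟩ := leafF he' ht hm
  refine ⟨K, fun ν hν => ?_⟩
  rw [f_eq he, f_eq he, hK ν hν]
  have : (Cen.sig e m : ℤ) = 2 * m - 1 + e := by
    unfold Cen.sig
    omega
  rw [this]

end GH.Comb
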