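import Pool.Agent.GH.Comb.Floor

namespace GH.Comb

/-- `⌊(x + d)/P⌋ ≤ ⌊x/P⌋ + ⌊(d - 1)/P⌋ + 1`. -/
theorem bl_ediv_add_le {P : ℤ} (hP : 0 < P) (x d : ℤ) :
    (x + d) / P ≤ x / P + (d - 1) / P + 1 := by
  have h1 := Int.mul_ediv_add_emod x P
  have h2 := Int.emod_lt_of_pos x hP
  have h3 := Int.mul_ediv_add_emod (d - 1) P
  have h4 := Int.emod_lt_of_pos (d - 1) hP
  have h5 : (x + d) / P < x / P + (d - 1) / P + 1 + 1 := by
    rw [Int.ediv_lt_iff_lt_mul hP]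
    nlinarith
  omega

/-- `⌊x/P⌋ + ⌊d/P⌋ ≤ ⌊(x + d)/P⌋`. -/
theorem bl_le_ediv_add {P : ℤ} (hP : 0 < P) (x d : ℤ) :
    x / P + d / P ≤ (x + d) / P := by
  rw [Int.le_ediv_iff_mul_le hP]
  have h1 := Int.ediv_mul_le x hP.ne'
  have h2 := Int.ediv_mul_le d hP.ne'
  nlinarith

theorem bl_zz_sub_ge {e : ℤ} (he : e = 0 ∨ e = 1) (c : ℤ) (s : ℕ) {i j : ℤ} (hij : i < j) :
    (3 * (j - i)) / 2 ^ s - 2 * ((2 * (j - i) - 1) / 2 ^ s) - 2 ≤ zz e c s j - zz e c s i := by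
  have hP : (0 : ℤ) < 2 ^ s := by positivity
  have h1 := bl_le_ediv_add hP (3 * i - 1 + e - c) (3 * (j - i))
  have h2 := bl_ediv_add_le hP (2 * i - c) (2 * (j - i))
  have h3 := bl_ediv_add_le hP (2 * i - 1 - c) (2 * (j - i))
  have h4 : ((3 * i - e) / 2 - c) / 2 ^ s ≤ ((3 * j - e) / 2 - c) / 2 ^ s :=
    Int.ediv_le_ediv hP (by omega)
  have e1 : 3 * i - 1 + e - c + 3 * (j - i) = 3 * j - 1 + e - c := by ring
  have e2 : 2 * i - c + 2 * (j - i) = 2 * j - c := by ring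
  have e3 : 2 * i - 1 - c + 2 * (j - i) = 2 * j - 1 - c := by ring
  rw [e1] at h1
  rw [e2] at h2
  rw [e3] at h3
  unfold zz
  linarith

theorem inc_sub_ge {e : ℤ} (he : e = 0 ∨ e = 1) (c : ℤ) {ν : ℕ} (hν : 1 ≤ ν) {i j : ℤ}
    (hij : i < j) : (j - i) + 3 - 2 * ν ≤ inc e c ν j - inc e c ν i := by
  have h1 : ∑ s ∈ Finset.Icc 1 ν, ((3 * (j - i)) / 2 ^ s - 2 * ((2 * (j - i) - 1) / 2 ^ s) - 2) ≤
      ∑ s ∈ Finset.Icc 1 ν, (zz e c s j - zz e c s i) :=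
    Finset.sum_le_sum fun s _ => bl_zz_sub_ge he c s hij
  have h2 : ∑ s ∈ Finset.Icc 1 ν, ((3 * (j - i)) / 2 ^ s - 2 * ((2 * (j - i) - 1) / 2 ^ s) - 2) =
      ∑ s ∈ Finset.Icc 1 ν, (3 * (j - i)) / 2 ^ s
        - 2 * ∑ s ∈ Finset.Icc 1 ν, (2 * (j - i) - 1) / 2 ^ s - 2 * ν := by
    rw [Finset.sum_sub_distrib, Finset.sum_sub_distrib, Finset.mul_sum]
    simp [mul_comm]
  have h3 : (3 * (j - i)) / 2 ≤ ∑ s ∈ Finset.Icc 1 ν, (3 * (j - i)) / 2 ^ s := by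
    have h4 := Finset.single_le_sum (f := fun s : ℕ => (3 * (j - i)) / 2 ^ s)
      (s := Finset.Icc 1 ν) (fun s _ => Int.ediv_nonneg (by omega) (by positivity))
      (Finset.mem_Icc.2 ⟨le_refl 1, hν⟩)
    simpa using h4
  have h4 := sum_div_le (x := 2 * (j - i) - 1) (by omega) ν
  have h5 : ∑ s ∈ Finset.Icc 1 ν, (zz e c s j - zz e c s i) =
      ∑ s ∈ Finset.Icc 1 ν, zz e c s j - ∑ s ∈ Finset.Icc 1 ν, zz e c s i :=
    Finset.sum_sub_distrib _ _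
  unfold inc
  rw [h2] at h1
  rw [h5] at h1
  omega

theorem inc_zero_lt {e : ℤ} (c : ℤ) {i j : ℤ} (hij : i < j) :
    inc e c 0 i < inc e c 0 j := by
  unfold inc
  simp only [Nat.lt_one_iff, Finset.Icc_eq_empty_of_lt, Finset.sum_empty, Nat.zero_lt_one]
  omega

theorem bl_F_succ (e c : ℤ) (ν n : ℕ) : F e c ν (n + 1) = F e c ν n + inc e c ν ((n : ℤ) + 1) := by
  unfold F
  rw [Finset.sum_range_succ]

/-- `F` grows superlinearly. -/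
theorem grows_F {e : ℤ} (he : e = 0 ∨ e = 1) (c : ℤ) (ν : ℕ) : Grows (F e c ν) := by
  intro C
  rcases Nat.eq_zero_or_pos ν with rfl | hν
  · refine ⟨(C - inc e c 0 0).toNat, fun k hk => ?_⟩
    rw [bl_F_succ]
    have h1 : (k : ℤ) ≤ inc e c 0 ((k : ℤ) + 1) - inc e c 0 0 := by
      unfold inc
      simp only [Nat.lt_one_iff, Finset.Icc_eq_empty_of_lt, Finset.sum_empty, Nat.zero_lt_one]
      omega
    omega
  · refine ⟨(C - inc e c ν 0 + 2 * ν).toNat, fun k hk => ?_⟩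
    rw [bl_F_succ]
    have h1 := inc_sub_ge he c hν (i := 0) (j := (k : ℤ) + 1) (by omega)
    omega

/-- Length of a block. -/
theorem Block.len {e : ℤ} (he : e = 0 ∨ e = 1) {c : ℤ} {ν a b : ℕ} {l : ℚ}
    (h : Block (F e c ν) a b l) : 1 ≤ ν ∧ (b : ℤ) - a ≤ 2 * ν - 2 := by
  have hab := h.lt
  obtain ⟨b', rfl⟩ : ∃ b', b = b' + 1 := ⟨b - 1, by omega⟩
  have h1 : l ≤ inc e c ν ((a : ℤ) + 1) := by
    have h2 := h.ge (a + 1)
    rw [bl_F_succ] at h2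
    push_cast at h2
    linarith
  have h2 : (inc e c ν ((b' : ℤ) + 1) : ℚ) ≤ l := by
    have h3 := h.ge b'
    have h4 := h.eq
    rw [bl_F_succ] at h4
    push_cast at h4
    linarith
  have h3 : inc e c ν ((b' : ℤ) + 1) ≤ inc e c ν ((a : ℤ) + 1) := by
    exact_mod_cast h2.trans h1
  rcases Nat.eq_zero_or_pos ν with rfl | hν
  · exact absurd h3 (not_le.2 (inc_zero_lt c (by omega)))
  · refine ⟨hν, ?_⟩
    have h4 := inc_sub_ge he c hν (i := (a : ℤ) + 1) (j := (b' : ℤ) + 1) (by omega)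
    push_cast
    omega

end GH.Comb
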