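import Pool.Agent.GH.Comb.Kink
import Pool.Agent.GH.Comb.Refl

namespace GH.Comb

theorem ctr_F_succ (e c : ℤ) (ν n : ℕ) :
    F e c ν (n + 1) = F e c ν n + inc e c ν ((n : ℤ) + 1) := by
  unfold F
  rw [Finset.sum_range_succ]

theorem Block.inc_left {e c : ℤ} {ν a b : ℕ} {l : ℚ} (h : Block (F e c ν) a b l) :
    l ≤ inc e c ν ((a : ℤ) + 1) := by
  have h1 := h.ge (a + 1)
  rw [ctr_F_succ] at h1
  push_cast at h1
  linarith

theorem Block.inc_right {e c : ℤ} {ν a b : ℕ} {l : ℚ} (h : Block (F e c ν) a b l) :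
    (inc e c ν (b : ℤ) : ℚ) ≤ l := by
  have h0 := h.lt
  obtain ⟨n, rfl⟩ : ∃ n, b = n + 1 := ⟨b - 1, by omega⟩
  have h1 := h.ge n
  have h2 := h.eq
  rw [ctr_F_succ] at h2
  push_cast at h2 ⊢
  linarith

theorem ctr_gg_symm (e m : ℤ) (ν : ℕ) (k : ℤ) : gg e m ν (m - k) = gg e m ν k := by
  unfold gg
  rw [sub_sub_cancel, add_comm]

/-- the average of `g` from above -/
theorem ctr_ge {g : ℕ → ℤ} {u v : ℕ} {s t : ℚ} (huv : u < v)
    (hs : ((∑ k ∈ Finset.Ioc u v, g k : ℤ) : ℚ) = s) (h : t * ((v : ℚ) - u) ≤ s) :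
    ∃ k, u < k ∧ k ≤ v ∧ t ≤ (g k : ℚ) := by
  have h1 : ∑ _k ∈ Finset.Ioc u v, t ≤ ∑ k ∈ Finset.Ioc u v, (g k : ℚ) := by
    rw [Finset.sum_const, Nat.card_Ioc, nsmul_eq_mul, Nat.cast_sub huv.le]
    rw [Int.cast_sum] at hs
    rw [hs]
    linarith
  obtain ⟨k, hk, h2⟩ := Finset.exists_le_of_sum_le ⟨v, Finset.mem_Ioc.2 ⟨huv, le_rfl⟩⟩ h1
  rw [Finset.mem_Ioc] at hk
  exact ⟨k, hk.1, hk.2, h2⟩

theorem ctr_gt {g : ℕ → ℤ} {u v : ℕ} {s t : ℚ} (huv : u < v)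
    (hs : ((∑ k ∈ Finset.Ioc u v, g k : ℤ) : ℚ) = s) (h : t * ((v : ℚ) - u) < s) :
    ∃ k, u < k ∧ k ≤ v ∧ t < (g k : ℚ) := by
  have h1 : ∑ _k ∈ Finset.Ioc u v, t < ∑ k ∈ Finset.Ioc u v, (g k : ℚ) := by
    rw [Finset.sum_const, Nat.card_Ioc, nsmul_eq_mul, Nat.cast_sub huv.le]
    rw [Int.cast_sum] at hs
    rw [hs]
    linarith
  obtain ⟨k, hk, h2⟩ := Finset.exists_lt_of_sum_lt h1
  rw [Finset.mem_Ioc] at hk
  exact ⟨k, hk.1, hk.2, h2⟩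

theorem ctr_le {g : ℕ → ℤ} {u v : ℕ} {s t : ℚ} (huv : u < v)
    (hs : ((∑ k ∈ Finset.Ioc u v, g k : ℤ) : ℚ) = s) (h : s ≤ t * ((v : ℚ) - u)) :
    ∃ k, u < k ∧ k ≤ v ∧ (g k : ℚ) ≤ t := by
  have h1 : ∑ k ∈ Finset.Ioc u v, (g k : ℚ) ≤ ∑ _k ∈ Finset.Ioc u v, t := by
    rw [Finset.sum_const, Nat.card_Ioc, nsmul_eq_mul, Nat.cast_sub huv.le]
    rw [Int.cast_sum] at hs
    rw [hs]
    linarith
  obtain ⟨k, hk, h2⟩ := Finset.exists_le_of_sum_le ⟨v, Finset.mem_Ioc.2 ⟨huv, le_rfl⟩⟩ h1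
  rw [Finset.mem_Ioc] at hk
  exact ⟨k, hk.1, hk.2, h2⟩

theorem ctr_lt {g : ℕ → ℤ} {u v : ℕ} {s t : ℚ} (huv : u < v)
    (hs : ((∑ k ∈ Finset.Ioc u v, g k : ℤ) : ℚ) = s) (h : s < t * ((v : ℚ) - u)) :
    ∃ k, u < k ∧ k ≤ v ∧ (g k : ℚ) < t := by
  have h1 : ∑ k ∈ Finset.Ioc u v, (g k : ℚ) < ∑ _k ∈ Finset.Ioc u v, t := by
    rw [Finset.sum_const, Nat.card_Ioc, nsmul_eq_mul, Nat.cast_sub huv.le]
    rw [Int.cast_sum] at hs
    rw [hs]
    linarith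
  obtain ⟨k, hk, h2⟩ := Finset.exists_lt_of_sum_lt h1
  rw [Finset.mem_Ioc] at hk
  exact ⟨k, hk.1, hk.2, h2⟩

/-- Case `a + b + 1 > m` is impossible. -/
theorem centre_gt {e : ℤ} (he : e = 0 ∨ e = 1) {m ν a b : ℕ} {l : ℚ}
    (hB : Block (F e m ν) a b l) (h1 : 2 * a + 2 ≤ m) (h2 : m ≤ 2 * b) : a + b + 1 ≤ m := by
  by_contra hcon
  obtain ⟨b', hb'⟩ : ∃ b', b' = m - 1 - a := ⟨_, rfl⟩
  have hm : m = a + b' + 1 := by omega
  have hab' : a < b' := by omega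
  have hb'b : b' < b := by omega
  have g1 := hB.ge b'
  have r1 := refl_sum e ν (m := m) (u := a) (v := b') hab'.le (by omega)
  have s1 : m - 1 - a = b' := by omega
  have s2 : m - 1 - b' = a := by omega
  rw [s1, s2] at r1
  obtain ⟨k, hk1, hk2, hk3⟩ := ctr_ge (g := fun k => gg e m ν (k : ℤ))
    (s := 2 * ((F e m ν b' : ℚ) - F e m ν a)) (t := 2 * l) hab'
    (by rw [← r1]; push_cast; ring) (by linarith)
  -- an index in the right half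
  obtain ⟨k1, hk1a, hk1b, hk1c⟩ : ∃ k1 : ℕ, m ≤ 2 * k1 ∧ k1 ≤ b' ∧
      2 * l ≤ (gg e m ν (k1 : ℤ) : ℚ) := by
    rcases le_total m (2 * k) with h | h
    · exact ⟨k, h, hk2, hk3⟩
    · refine ⟨m - k, by omega, by omega, ?_⟩
      rw [Nat.cast_sub (by omega), ctr_gg_symm]
      exact hk3
  have hr := hB.inc_right
  rcases le_or_gt m b with hmb | hmb
  · have q1 := inc_big he (m := m) ν (b := (b : ℤ)) (by omega) (by exact_mod_cast hmb)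
    have q2 := gg_le_max he (m := m) ν (k1 : ℤ) (by omega)
    have q1' : ((2 * (m : ℤ) + 2 : ℤ) : ℚ) ≤ (inc e m ν (b : ℤ) : ℚ) := by exact_mod_cast q1
    have q2' : (gg e m ν (k1 : ℤ) : ℚ) ≤ ((4 * (m : ℤ) + 1 : ℤ) : ℚ) := by exact_mod_cast q2
    push_cast at q1' q2'
    linarith
  · obtain ⟨A, hA⟩ : ∃ A, A = m - 1 - b := ⟨_, rfl⟩
    have hAa : A < a := by omega
    have r2 := refl_sum e ν (m := m) (u := b') (v := b) hb'b.le (by omega)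
    have s3 : m - 1 - b = A := hA.symm
    rw [s2, s3] at r2
    have g2 := hB.gtl A hAa
    have g3 := hB.eq
    have c1 : (a : ℚ) - A = b - b' := by
      have : a + b' = A + b := by omega
      have h' : (a : ℚ) + b' = A + b := by exact_mod_cast this
      linarith
    have c2 : l * ((A : ℚ) - a) = - (l * ((b : ℚ) - b')) := by
      rw [← c1]
      ring
    obtain ⟨k3, hk3a, hk3b, hk3c⟩ := ctr_lt (g := fun k => gg e m ν (k : ℤ))
      (s := ((F e m ν b : ℚ) - F e m ν b') + (F e m ν a - F e m ν A)) (t := 2 * l) hb'b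
      (by rw [← r2]; push_cast; ring) (by linarith)
    have hne : gg e m ν (k1 : ℤ) ≠ gg e m ν (k3 : ℤ) := by
      intro h
      rw [h] at hk1c
      exact absurd hk1c (not_le.2 hk3c)
    have q1 := kinkC' he (m := m) (ν := ν) (k1 := (k1 : ℤ)) (k3 := (k3 : ℤ)) (k := (b : ℤ))
      (by exact_mod_cast hk1a) (by omega) (by exact_mod_cast hk3b) (by omega) hne
    have q2 := gg_le he (m := m) ν (k1 : ℤ) (b : ℤ)
    have q3 : gg e m ν (b : ℤ) = inc e m ν (b : ℤ) + inc e m ν ((m : ℤ) - b) := rfl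
    have q4 : gg e m ν (k1 : ℤ) ≤ 2 * inc e m ν (b : ℤ) - 1 := by linarith
    have q5 : (gg e m ν (k1 : ℤ) : ℚ) ≤ 2 * (inc e m ν (b : ℤ) : ℚ) - 1 := by exact_mod_cast q4
    linarith

/-- Case `a + b + 1 < m` is impossible. -/
theorem centre_lt {e : ℤ} (he : e = 0 ∨ e = 1) {m ν a b : ℕ} {l : ℚ}
    (hB : Block (F e m ν) a b l) (h1 : 2 * a + 2 ≤ m) (h2 : m ≤ 2 * b) : m ≤ a + b + 1 := by
  by_contra hcon
  obtain ⟨b', hb'⟩ : ∃ b', b' = m - 1 - b := ⟨_, rfl⟩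
  obtain ⟨A, hA⟩ : ∃ A, A = m - 1 - a := ⟨_, rfl⟩
  have hab' : a < b' := by omega
  have hb'b : b' < b := by omega
  have hbA : b < A := by omega
  have g1 := hB.ge b'
  have r1 := refl_sum e ν (m := m) (u := b') (v := b) hb'b.le (by omega)
  have s1 : m - 1 - b' = b := by omega
  have s2 : m - 1 - b = b' := by omega
  rw [s1, s2] at r1
  have g3 := hB.eq
  obtain ⟨k, hk1, hk2, hk3⟩ := ctr_le (g := fun k => gg e m ν (k : ℤ))
    (s := 2 * ((F e m ν b : ℚ) - F e m ν b')) (t := 2 * l) hb'b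
    (by rw [← r1]; push_cast; ring) (by linarith)
  obtain ⟨k1, hk1a, hk1b, hk1c⟩ : ∃ k1 : ℕ, m ≤ 2 * k1 ∧ k1 ≤ b ∧
      (gg e m ν (k1 : ℤ) : ℚ) ≤ 2 * l := by
    rcases le_total m (2 * k) with h | h
    · exact ⟨k, h, hk2, hk3⟩
    · refine ⟨m - k, by omega, by omega, ?_⟩
      rw [Nat.cast_sub (by omega), ctr_gg_symm]
      exact hk3
  have hl := hB.inc_left
  have r2 := refl_sum e ν (m := m) (u := b) (v := A) hbA.le (by omega)
  have s3 : m - 1 - A = a := by omega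
  rw [s2, s3] at r2
  have g2 := hB.gtr A hbA
  have c1 : (b' : ℚ) - a = A - b := by
    have : b' + b = A + a := by omega
    have h' : (b' : ℚ) + b = A + a := by exact_mod_cast this
    linarith
  have c2 : l * ((b' : ℚ) - a) = l * ((A : ℚ) - b) := by rw [c1]
  obtain ⟨k3, hk3a, hk3b, hk3c⟩ := ctr_gt (g := fun k => gg e m ν (k : ℤ))
    (s := ((F e m ν A : ℚ) - F e m ν b) + (F e m ν b' - F e m ν a)) (t := 2 * l) hbA
    (by rw [← r2]; push_cast; ring) (by linarith)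
  have hne : gg e m ν (k1 : ℤ) ≠ gg e m ν (k3 : ℤ) := by
    intro h
    rw [h] at hk1c
    exact absurd hk1c (not_le.2 hk3c)
  have q1 := kinkC' he (m := m) (ν := ν) (k1 := (k1 : ℤ)) (k3 := (k3 : ℤ)) (k := (A : ℤ))
    (by exact_mod_cast hk1a) (by omega) (by exact_mod_cast hk3b) (by omega) hne
  have q2 := gg_le he (m := m) ν (A : ℤ) (k1 : ℤ)
  have q3 : gg e m ν (A : ℤ) = inc e m ν (A : ℤ) + inc e m ν ((m : ℤ) - A) := rfl
  have s4 : (m : ℤ) - A = a + 1 := by omega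
  rw [s4] at q1 q3
  have q4 : 2 * inc e m ν ((a : ℤ) + 1) + 1 ≤ gg e m ν (k1 : ℤ) := by linarith
  have q5 : 2 * (inc e m ν ((a : ℤ) + 1) : ℚ) + 1 ≤ (gg e m ν (k1 : ℤ) : ℚ) := by
    exact_mod_cast q4
  linarith

end GH.Comb
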