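import Pool.Agent.GH.Comb.Centre
import Pool.Agent.GH.Comb.BlockLen

/-!
# GH-COMB: a block around the centre (row GHC-12)
-/

namespace GH.Comb

theorem gg_symm (e m : ℤ) (ν : ℕ) (k : ℤ) : gg e m ν (m - k) = gg e m ν k := by
  unfold gg
  rw [sub_sub_cancel, add_comm]

theorem block_centre {e : ℤ} (he : e = 0 ∨ e = 1) {m ν a b : ℕ} {l : ℚ}
    (hB : Block (F e m ν) a b l) (hm : a + b + 1 = m) :
    (∃ z : ℤ, l = z) ∧ XX e m b / 2 ^ ν = YY e m b / 2 ^ ν ∧ 2 * ((b : ℤ) - a) - 2 < 2 ^ ν := by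
  have hlt := hB.lt
  have hν : 1 ≤ ν := (Block.len he hB).1
  have hmz : (m : ℤ) = a + b + 1 := by exact_mod_cast hm.symm
  -- (1)
  have h1 : XX e m b / 2 ^ ν = YY e m b / 2 ^ ν := by
    by_contra hne
    have h2 := kinkC he hν (k := (b : ℤ)) (m := (m : ℤ)) (by omega) hne
    have h3 : (m : ℤ) - b = a + 1 := by omega
    rw [h3] at h2
    have h4 := hB.inc_left
    have h5 := hB.inc_right
    have h6 : (inc e m ν (b : ℤ) : ℚ) ≤ inc e m ν ((a : ℤ) + 1) := h5.trans h4
    have h7 : inc e m ν (b : ℤ) ≤ inc e m ν ((a : ℤ) + 1) := by exact_mod_cast h6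
    omega
  have hP : (0 : ℤ) < 2 ^ ν := by positivity
  have hXY : XX e m b - YY e m b = 3 * ((b : ℤ) - a - 1) := by
    unfold XX YY
    rw [hmz]
    ring
  -- (2)
  have h2 : XX e m b - YY e m b < 2 ^ ν := by
    have e1 := Int.emod_add_mul_ediv (XX e m b) (2 ^ ν)
    have e2 := Int.emod_add_mul_ediv (YY e m b) (2 ^ ν)
    have e3 := Int.emod_lt_of_pos (XX e m b) hP
    have e4 := Int.emod_nonneg (YY e m b) hP.ne'
    rw [h1] at e1
    omega
  -- (3)
  have hT : (0 : ℤ) < 2 ^ (ν + 1) := by positivity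
  have h3 : XX e m b / 2 ^ (ν + 1) = YY e m b / 2 ^ (ν + 1) := by
    rw [pow_succ, ← Int.ediv_ediv_of_nonneg hP.le, ← Int.ediv_ediv_of_nonneg hP.le, h1]
  set G : ℤ := gg e m ν (b : ℤ) with hG
  have hconst : ∀ k : ℤ, (a : ℤ) < k → k ≤ b → gg e m ν k = G := by
    intro k hk1 hk2
    rcases le_or_gt (m : ℤ) (2 * k) with h | h
    · exact gg_const he h hk2 h3
    · rw [← gg_symm]
      exact gg_const he (by omega) (by omega) h3
  set c : ℤ := ((m : ℤ) + 1) / 2 with hc
  have hc1 : (m : ℤ) ≤ 2 * c := by omega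
  have hc2 : 2 * c ≤ m + 1 := by omega
  have hca : (a : ℤ) < c := by omega
  have hcb : c ≤ b := by omega
  have hcn : XX e m c / 2 ^ (ν + 1) = YY e m c / 2 ^ (ν + 1) := by
    have e1 : XX e m c ≤ XX e m b := by unfold XX; omega
    have e2 : YY e m b ≤ YY e m c := by unfold YY; omega
    have e3 : YY e m c ≤ XX e m c := by unfold XX YY; omega
    have f1 := Int.ediv_le_ediv hT e1
    have f2 := Int.ediv_le_ediv hT e2
    have f3 := Int.ediv_le_ediv hT e3
    omega
  have heven : Even G := by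
    rw [← hconst c hca hcb]
    exact gg_even he hc1 hc2 hcn
  have hsum := refl_sum e ν (m := m) (u := a) (v := b) (by omega) (by omega)
  have hm1 : m - 1 - a = b := by omega
  have hm2 : m - 1 - b = a := by omega
  rw [hm1, hm2] at hsum
  have hsum2 : ∑ k ∈ Finset.Ioc a b, gg e m ν (k : ℤ) = ((b : ℤ) - a) * G := by
    have hc3 : ∀ k ∈ Finset.Ioc a b, gg e m ν (k : ℤ) = G := fun k hk => hconst (k : ℤ)
      (by exact_mod_cast (Finset.mem_Ioc.1 hk).1) (by exact_mod_cast (Finset.mem_Ioc.1 hk).2)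
    rw [Finset.sum_congr rfl hc3]
    rw [Finset.sum_const, Nat.card_Ioc, nsmul_eq_mul]
    have : ((b - a : ℕ) : ℤ) = (b : ℤ) - a := by
      rw [Nat.cast_sub (by omega)]
    rw [this]
  rw [hsum2] at hsum
  obtain ⟨z, hz⟩ := heven
  refine ⟨⟨z, ?_⟩, h1, ?_⟩
  · have h4 := hB.eq
    have h5 : ((b : ℚ) - a) * (l - z) = 0 := by
      have h6 : ((F e m ν b : ℤ) : ℚ) - F e m ν a + (F e m ν b - F e m ν a)
          = ((b : ℚ) - a) * G := by exact_mod_cast hsum
      have h7 : (G : ℚ) = z + z := by exact_mod_cast hz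
      rw [h7, h4] at h6
      linarith
    rcases mul_eq_zero.1 h5 with h6 | h6
    · have h7 : (b : ℚ) = a := by linarith
      have h8 : b = a := by exact_mod_cast h7
      omega
    · linarith
  · omega

end GH.Comb
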