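import Mathlib

/-!
# GH-COMB: the combinatorics of the hull, `p = 2`, level one

`e = 0` is the even disc, `e = 1` the odd disc. `F e c ν n` is the valuation of the `n`-th
leading minor at the Gauss point of the disc `c mod 2^ν`.
-/

namespace GH.Comb

/-- The increment of the number of zeros, in the class `c mod 2^s`, of the `k`-th minor:
`#[2k+1, 3k-1+e] - #[⌊(3k-e)/2⌋+1, 2k-1]` in the class `c mod 2^s`. -/
def zz (e c : ℤ) (s : ℕ) (k : ℤ) : ℤ :=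
  (3 * k - 1 + e - c) / 2 ^ s - (2 * k - c) / 2 ^ s - (2 * k - 1 - c) / 2 ^ s
    + ((3 * k - e) / 2 - c) / 2 ^ s

/-- The increment `v(D_k) - v(D_(k-1))` at the node `c mod 2^ν`. -/
def inc (e c : ℤ) (ν : ℕ) (k : ℤ) : ℤ :=
  3 * k + (k + e) / 2 + ∑ s ∈ Finset.Icc 1 ν, zz e c s k

/-- `v(D_n)` at the node `c mod 2^ν`. -/
def F (e c : ℤ) (ν n : ℕ) : ℤ := ∑ k ∈ Finset.range n, inc e c ν (k + 1)

/-- `N(n) = F(child) - F(parent)`: zeros of the `n`-th minor in the class `c mod 2^s`. -/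
def NN (e c : ℤ) (s n : ℕ) : ℤ := ∑ k ∈ Finset.range n, zz e c s (k + 1)

/-- `X_k = 3k-m-1+e`; the window of `k` is `(Y_k, X_k]`. -/
def XX (e m k : ℤ) : ℤ := 3 * k - m - 1 + e

/-- `Y_k = 2m-3k-1+e`. -/
def YY (e m k : ℤ) : ℤ := 2 * m - 3 * k - 1 + e

/-- `g(k) = inc k + inc (m-k)` at the node of centre `m`. -/
def gg (e m : ℤ) (ν : ℕ) (k : ℤ) : ℤ := inc e m ν k + inc e m ν (m - k)

/-- Strict vertices. -/
def IsV (f : ℕ → ℤ) (n : ℕ) : Prop :=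
  ∀ a b : ℕ, a < n → n < b → (f n - f a) * ((b : ℤ) - n) < (f b - f n) * ((n : ℤ) - a)

/-- `a < b` are consecutive strict vertices at distance `≥ 2`, joined by a line of slope `l`. -/
structure Block (f : ℕ → ℤ) (a b : ℕ) (l : ℚ) : Prop where
  lt : a + 2 ≤ b
  eq : (f b : ℚ) = f a + l * ((b : ℚ) - a)
  ge : ∀ k : ℕ, (f a : ℚ) + l * ((k : ℚ) - a) ≤ f k
  gtl : ∀ k : ℕ, k < a → (f a : ℚ) + l * ((k : ℚ) - a) < f k
  gtr : ∀ k : ℕ, b < k → (f a : ℚ) + l * ((k : ℚ) - a) < f k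

/-- Superlinear growth. -/
def Grows (f : ℕ → ℤ) : Prop := ∀ C : ℤ, ∃ K : ℕ, ∀ k : ℕ, K ≤ k → C ≤ f (k + 1) - f k

/-- `h` is the (integer valued) lower convex hull of `f`. -/
structure IsHull (f h : ℕ → ℤ) : Prop where
  le : ∀ n, h n ≤ f n
  zero : h 0 = f 0
  conv : ∀ n, 2 * h (n + 1) ≤ h n + h (n + 2)
  lin : ∀ n, h (n + 1) < f (n + 1) → 2 * h (n + 1) = h n + h (n + 2)
  touch : ∀ n, ∃ b, n ≤ b ∧ h b = f b

/-- Vertices of the hull. -/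
def Vtx (h : ℕ → ℤ) (n : ℕ) : Prop := n = 0 ∨ 2 * h n < h (n - 1) + h (n + 1)

/-- The structure of a block `(a, b)` at the node `c mod 2^ν`, with level `s`. -/
structure BStr (e c : ℤ) (ν a b s : ℕ) : Prop where
  one : 1 ≤ s
  le : s ≤ ν
  dvd : (2 ^ s : ℤ) ∣ ((a : ℤ) + b + 1) - c
  max : s = ν ∨ ¬ (2 ^ (s + 1) : ℤ) ∣ ((a : ℤ) + b + 1) - c
  nk : XX e ((a : ℤ) + b + 1) b / 2 ^ s = YY e ((a : ℤ) + b + 1) b / 2 ^ s
  len : 2 * ((b : ℤ) - a) - 2 < 2 ^ s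

/-- The structure theorem at a node. -/
def ST (e c : ℤ) (ν : ℕ) : Prop :=
  ∀ (a b : ℕ) (l : ℚ), Block (F e c ν) a b l → (∃ z : ℤ, l = z) ∧ ∃ s, BStr e c ν a b s

end GH.Comb
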