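import Pool.Agent.GH.Comb.Defs

namespace GH.Comb

theorem fl_sub {c m t : ℤ} {s : ℕ} (h : m - c = 2 ^ s * t) (x : ℤ) :
    (x - c) / 2 ^ s = (x - m) / 2 ^ s + t := by
  have h1 : x - c = (x - m) + 2 ^ s * t := by rw [← h]; ring
  rw [h1, Int.add_mul_ediv_left _ _ (by positivity)]

theorem zz_congr {e c m : ℤ} {s : ℕ} (h : (2 ^ s : ℤ) ∣ m - c) (k : ℤ) :
    zz e c s k = zz e m s k := by
  obtain ⟨t, ht⟩ := h
  unfold zz
  rw [fl_sub ht, fl_sub ht, fl_sub ht, fl_sub ht]
  ring

theorem inc_congr {e c m : ℤ} {ν : ℕ} (h : (2 ^ ν : ℤ) ∣ m - c) (k : ℤ) :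
    inc e c ν k = inc e m ν k := by
  unfold inc
  congr 1
  refine Finset.sum_congr rfl fun s hs => zz_congr (dvd_trans ?_ h) k
  exact pow_dvd_pow 2 (Finset.mem_Icc.1 hs).2

theorem F_congr {e c m : ℤ} {ν : ℕ} (h : (2 ^ ν : ℤ) ∣ m - c) (n : ℕ) :
    F e c ν n = F e m ν n := by
  unfold F
  exact Finset.sum_congr rfl fun k _ => inc_congr h _

theorem inc_succ (e c : ℤ) (ν : ℕ) (k : ℤ) :
    inc e c (ν + 1) k = inc e c ν k + zz e c (ν + 1) k := by
  unfold inc
  rw [Finset.sum_Icc_succ_top (by omega), ← add_assoc]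

theorem F_succ (e c : ℤ) (ν n : ℕ) : F e c (ν + 1) n = F e c ν n + NN e c (ν + 1) n := by
  unfold F NN
  rw [← Finset.sum_add_distrib]
  exact Finset.sum_congr rfl fun k _ => inc_succ e c ν _

theorem fl_neg {N : ℤ} (hN : 0 < N) (y : ℤ) : (-y - 1) / N = -(y / N) - 1 := by
  have h1 := Int.mul_ediv_add_emod y N
  have h2 := Int.emod_nonneg y hN.ne'
  have h3 := Int.emod_lt_of_pos y hN
  refine ((Int.ediv_emod_unique hN (r := N - y % N - 1)).2 ⟨?_, by linarith, by linarith⟩).1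
  linear_combination -h1

theorem zz_center (e m : ℤ) (s : ℕ) (k : ℤ) :
    zz e m s k = XX e m k / 2 ^ s - (2 * k - m) / 2 ^ s - (2 * k - m - 1) / 2 ^ s
      - YY e m k / 2 ^ (s + 1) - 1 := by
  unfold zz
  have h1 : 3 * k - 1 + e - m = XX e m k := by unfold XX; ring
  have h2 : 2 * k - 1 - m = 2 * k - m - 1 := by ring
  have h3 : ((3 * k - e) / 2 - m) / 2 ^ s = -(YY e m k / 2 ^ (s + 1)) - 1 := by
    have h4 : (3 * k - e) / 2 - m = (-YY e m k - 1) / 2 := by
      unfold YY
      omega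
    rw [h4, Int.ediv_ediv_of_nonneg (by norm_num), ← fl_neg (by positivity), pow_succ, mul_comm]
  rw [h1, h2, h3]
  ring

theorem sum_div_le {x : ℤ} (hx : 1 ≤ x) (ν : ℕ) : ∑ s ∈ Finset.Icc 1 ν, x / 2 ^ s ≤ x - 1 := by
  induction ν generalizing x with
  | zero => simpa using hx
  | succ ν ih =>
    have h1 : ∑ s ∈ Finset.Icc 1 (ν + 1), x / 2 ^ s =
        x / 2 + ∑ s ∈ Finset.Icc 1 ν, (x / 2) / 2 ^ s := by
      have h2 : Finset.Icc 1 (ν + 1) = insert 1 ((Finset.Icc 1 ν).image (· + 1)) := by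
        ext s
        simp only [Finset.mem_Icc, Finset.mem_insert, Finset.mem_image]
        constructor
        · rintro ⟨h3, h4⟩
          rcases Nat.eq_or_lt_of_le h3 with h5 | h5
          · exact Or.inl h5.symm
          · exact Or.inr ⟨s - 1, ⟨by omega, by omega⟩, by omega⟩
        · rintro (rfl | ⟨t, ⟨h3, h4⟩, rfl⟩)
          · omega
          · omega
      rw [h2, Finset.sum_insert, Finset.sum_image (fun a _ b _ h => by simpa using h)]
      · rw [pow_one]
        congr 1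
        refine Finset.sum_congr rfl fun s _ => ?_
        rw [Int.ediv_ediv_of_nonneg (by norm_num), pow_succ, mul_comm]
      · simp only [Finset.mem_image, Finset.mem_Icc, not_exists, not_and]
        intro t ht
        omega
    rw [h1]
    rcases le_or_gt 1 (x / 2) with h | h
    · have h2 := ih h
      omega
    · have h2 : x / 2 = 0 := by omega
      rw [h2]
      simp only [Int.zero_ediv, Finset.sum_const_zero]
      omega

end GH.Comb
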