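import Pool.Agent.GH.Comb.Floor

namespace GH.Comb

private theorem neg_div_aux (y : ℤ) {P : ℤ} (hP : 0 < P) : (-y - 1) / P = -(y / P) - 1 := by
  have h1 := Int.emod_add_mul_ediv y P
  have h2 := Int.emod_nonneg y hP.ne'
  have h3 := Int.emod_lt_of_pos y hP
  rw [Int.ediv_eq_iff_of_pos hP]
  constructor
  · nlinarith
  · nlinarith

private theorem XX_refl (e m k : ℤ) : XX e m (m - k) = YY e m k := by
  unfold XX YY
  ring

private theorem YY_refl (e m k : ℤ) : YY e m (m - k) = XX e m k := by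
  unfold XX YY
  ring

private theorem zz_refl (e m : ℤ) (s : ℕ) (k : ℤ) :
    zz e m s (m - k) = YY e m k / 2 ^ s + (2 * k - m - 1) / 2 ^ s + (2 * k - m) / 2 ^ s
      - XX e m k / 2 ^ (s + 1) + 1 := by
  have hP : (0 : ℤ) < 2 ^ s := by positivity
  rw [zz_center, XX_refl, YY_refl]
  have h1 := neg_div_aux (2 * k - m - 1) hP
  have h2 := neg_div_aux (2 * k - m) hP
  rw [show -(2 * k - m - 1) - 1 = 2 * (m - k) - m by ring] at h1
  rw [show -(2 * k - m) - 1 = 2 * (m - k) - m - 1 by ring] at h2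
  rw [h1, h2]
  ring

private theorem tel_aux (x : ℤ) (ν : ℕ) :
    ∑ s ∈ Finset.Icc 1 ν, (x / 2 ^ s - x / 2 ^ (s + 1)) = x / 2 - x / 2 ^ (ν + 1) := by
  induction ν with
  | zero => simp
  | succ ν ih =>
    rw [Finset.sum_Icc_succ_top (by omega), ih]
    ring

/-- The near duality (B). -/
theorem gg_eq {e m : ℤ} (he : e = 0 ∨ e = 1) (ν : ℕ) (k : ℤ) :
    gg e m ν k = 4 * m - 2 + 2 * e - XX e m k / 2 ^ (ν + 1) - YY e m k / 2 ^ (ν + 1) := by
  have h1 : ∑ s ∈ Finset.Icc 1 ν, zz e m s k + ∑ s ∈ Finset.Icc 1 ν, zz e m s (m - k) =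
      (XX e m k / 2 - XX e m k / 2 ^ (ν + 1)) + (YY e m k / 2 - YY e m k / 2 ^ (ν + 1)) := by
    rw [← tel_aux, ← tel_aux, ← Finset.sum_add_distrib, ← Finset.sum_add_distrib]
    refine Finset.sum_congr rfl fun s _ => ?_
    rw [zz_refl, zz_center]
    ring
  have h2 : 3 * k + (k + e) / 2 + (3 * (m - k) + (m - k + e) / 2) + XX e m k / 2 + YY e m k / 2 =
      4 * m - 2 + 2 * e := by
    unfold XX YY
    obtain ⟨a, ha | ha⟩ := k.even_or_odd' <;> obtain ⟨b, hb | hb⟩ := m.even_or_odd' <;>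
      rcases he with rfl | rfl <;> subst ha <;> subst hb <;> omega
  unfold gg inc
  linarith

/-- (A). -/
theorem inc_sub (e m : ℤ) (ν : ℕ) (k : ℤ) :
    inc e m ν k - inc e m ν (m - k) = 3 * (2 * k - m) + (k + e) / 2 - (m - k + e) / 2
      + ∑ s ∈ Finset.Icc 1 ν, ((XX e m k / 2 ^ s - YY e m k / 2 ^ s)
        + (XX e m k / 2 ^ (s + 1) - YY e m k / 2 ^ (s + 1))
        - 2 * ((2 * k - m) / 2 ^ s) - 2 * ((2 * k - m - 1) / 2 ^ s) - 2) := by
  have h1 : ∑ s ∈ Finset.Icc 1 ν, ((XX e m k / 2 ^ s - YY e m k / 2 ^ s)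
        + (XX e m k / 2 ^ (s + 1) - YY e m k / 2 ^ (s + 1))
        - 2 * ((2 * k - m) / 2 ^ s) - 2 * ((2 * k - m - 1) / 2 ^ s) - 2) =
      ∑ s ∈ Finset.Icc 1 ν, zz e m s k - ∑ s ∈ Finset.Icc 1 ν, zz e m s (m - k) := by
    rw [← Finset.sum_sub_distrib]
    refine Finset.sum_congr rfl fun s _ => ?_
    rw [zz_refl, zz_center]
    ring
  rw [h1]
  unfold inc
  ring

end GH.Comb
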