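import Pool.Agent.GH.Comb.HullBlk

namespace GH.Comb

variable {f : ℕ → ℤ}

theorem blocks_unique {a b a' b' n : ℕ} {l l' : ℚ} (h : Block f a b l) (h' : Block f a' b' l')
    (h1 : a < n) (h2 : n < b) (h3 : a' < n) (h4 : n < b') : a = a' ∧ b = b' ∧ l = l' := by
  have ha : a = a' := by
    rcases lt_trichotomy a a' with hlt | heq | hgt
    · exact absurd h'.isV_left (h.not_isV hlt (by omega))
    · exact heq
    · exact absurd h.isV_left (h'.not_isV hgt (by omega))
  have hb : b = b' := by
    rcases lt_trichotomy b b' with hlt | heq | hgt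
    · exact absurd h.isV_right (h'.not_isV (by omega) hlt)
    · exact heq
    · exact absurd h'.isV_right (h.not_isV (by omega) hgt)
  subst ha hb
  refine ⟨rfl, rfl, ?_⟩
  have e1 := h.eq
  have e2 := h'.eq
  have hpos : (0 : ℚ) < (b : ℚ) - a := by
    have : (a : ℚ) < b := by exact_mod_cast (lt_trans h1 h2)
    linarith
  have : l * ((b : ℚ) - a) = l' * ((b : ℚ) - a) := by linarith
  exact mul_right_cancel₀ (ne_of_gt hpos) this

/-- Existence of the integer valued hull. -/
theorem exists_hull (hg : Grows f) (hint : ∀ (a b : ℕ) (l : ℚ), Block f a b l → ∃ z : ℤ, l = z) :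
    ∃ h : ℕ → ℤ, IsHull f h ∧ (∀ n, IsV f n → h n = f n) ∧ (∀ n, Vtx h n ↔ IsV f n) ∧
      ∀ (a b : ℕ) (l : ℚ), Block f a b l → ∀ k : ℕ, a ≤ k → k ≤ b →
        (h k : ℚ) = f a + l * ((k : ℚ) - a) := by
  classical
  choose A B L hA hB hL using fun (n : ℕ) (hn : ¬ IsV f n) ↦ block_of_not_isV hg hn
  set h : ℕ → ℤ := fun n ↦ if hn : IsV f n then f n else
    ⌊(f (A n hn) : ℚ) + L n hn * ((n : ℚ) - A n hn)⌋ with hdef
  have hV : ∀ n, IsV f n → h n = f n := by
    intro n hn
    simp only [hdef, dif_pos hn]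
  have hblk : ∀ (a b : ℕ) (l : ℚ), Block f a b l → ∀ k : ℕ, a ≤ k → k ≤ b →
      (h k : ℚ) = f a + l * ((k : ℚ) - a) := by
    intro a b l hbl k hak hkb
    rcases Nat.eq_or_lt_of_le hak with heq | hlt
    · subst heq
      rw [hV _ hbl.isV_left]
      ring
    rcases Nat.eq_or_lt_of_le hkb with heq | hlt'
    · subst heq
      rw [hV _ hbl.isV_right]
      exact hbl.eq
    have hn : ¬ IsV f k := hbl.not_isV hlt hlt'
    obtain ⟨e1, e2, e3⟩ := blocks_unique hbl (hL k hn) hlt hlt' (hA k hn) (hB k hn)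
    obtain ⟨z, hz⟩ := hint a b l hbl
    simp only [hdef, dif_neg hn]
    rw [← e1, ← e3, hz]
    have : (f a : ℚ) + (z : ℚ) * ((k : ℚ) - a) = ((f a + z * ((k : ℤ) - a) : ℤ) : ℚ) := by
      push_cast
      ring
    rw [this, Int.floor_intCast]
  have hle : ∀ n, h n ≤ f n := by
    intro n
    by_cases hn : IsV f n
    · exact (hV n hn).le
    · have h1 := hblk _ _ _ (hL n hn) n (hA n hn).le (hB n hn).le
      have h2 := (hL n hn).ge n
      exact_mod_cast h1.trans_le h2
  have lemA : ∀ n, ¬ IsV f (n + 1) → 2 * h (n + 1) = h n + h (n + 2) := by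
    intro n hn
    have a1 := hA _ hn
    have b1 := hB _ hn
    have e0 := hblk _ _ _ (hL _ hn) n (by omega) (by omega)
    have e1 := hblk _ _ _ (hL _ hn) (n + 1) (by omega) (by omega)
    have e2 := hblk _ _ _ (hL _ hn) (n + 2) (by omega) (by omega)
    have : (2 * h (n + 1) : ℚ) = h n + h (n + 2) := by
      rw [e0, e1, e2]
      push_cast
      ring
    exact_mod_cast this
  have lemR : ∀ n, IsV f n → ∃ b, n < b ∧
      (h (n + 1) - f n) * ((b : ℤ) - n) = f b - f n := by
    intro n hn
    by_cases hn1 : IsV f (n + 1)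
    · refine ⟨n + 1, by omega, ?_⟩
      rw [hV _ hn1]
      push_cast
      ring
    · have a1 := hA _ hn1
      have b1 := hB _ hn1
      have hbl := hL _ hn1
      have ha : A (n + 1) hn1 = n := by
        by_contra hne
        exact hbl.not_isV (show A (n + 1) hn1 < n by omega) (by omega) hn
      refine ⟨B (n + 1) hn1, by omega, ?_⟩
      have e1 := hblk _ _ _ hbl (n + 1) (by omega) (by omega)
      have e2 := hbl.eq
      rw [ha] at e1 e2
      have : ((h (n + 1) : ℚ) - f n) * ((B (n + 1) hn1 : ℚ) - n) = f (B (n + 1) hn1) - f n := by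
        rw [e1, e2]
        push_cast
        ring
      exact_mod_cast this
  have lemL : ∀ n, IsV f (n + 1) → ∃ a, a < n + 1 ∧
      (f (n + 1) - h n) * (((n : ℤ) + 1) - a) = f (n + 1) - f a := by
    intro n hn
    by_cases hn1 : IsV f n
    · refine ⟨n, by omega, ?_⟩
      rw [hV _ hn1]
      ring
    · have a1 := hA _ hn1
      have b1 := hB _ hn1
      have hbl := hL _ hn1
      have hb : B n hn1 = n + 1 := by
        by_contra hne
        exact hbl.not_isV (show A n hn1 < n + 1 by omega) (by omega) hn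
      refine ⟨A n hn1, by omega, ?_⟩
      have e1 := hblk _ _ _ hbl n (by omega) (by omega)
      have e2 := hbl.eq
      rw [hb] at e2
      push_cast at e2
      have : ((f (n + 1) : ℚ) - h n) * (((n : ℚ) + 1) - A n hn1) = f (n + 1) - f (A n hn1) := by
        rw [e1, e2]
        ring
      exact_mod_cast this
  have lemB : ∀ n, IsV f (n + 1) → 2 * h (n + 1) < h n + h (n + 2) := by
    intro n hn
    obtain ⟨b, hb, eb⟩ := lemR _ hn
    obtain ⟨a, ha, ea⟩ := lemL _ hn
    have hv := hn a b ha hb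
    rw [hV _ hn]
    have hA' : (0 : ℤ) < ((n : ℤ) + 1) - a := by omega
    have hB' : (0 : ℤ) < (b : ℤ) - ((n + 1 : ℕ) : ℤ) := by omega
    rw [← ea, ← eb] at hv
    have h1 : (h (n + 1 + 1) - f (n + 1) - (f (n + 1) - h n)) *
        ((((n : ℤ) + 1) - a) * ((b : ℤ) - ((n + 1 : ℕ) : ℤ))) > 0 := by
      push_cast at hv ⊢
      nlinarith [hv]
    have h2 : 0 < h (n + 1 + 1) - f (n + 1) - (f (n + 1) - h n) :=
      (mul_pos_iff_of_pos_right (mul_pos hA' hB')).1 h1
    have h3 : h (n + 1 + 1) = h (n + 2) := rfl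
    omega
  refine ⟨h, ⟨hle, hV 0 isV_zero, ?_, ?_, ?_⟩, hV, ?_, hblk⟩
  · intro n
    by_cases hn : IsV f (n + 1)
    · exact (lemB n hn).le
    · exact (lemA n hn).le
  · intro n hlt
    refine lemA n fun hn ↦ ?_
    rw [hV _ hn] at hlt
    exact lt_irrefl _ hlt
  · intro n
    by_cases hn : IsV f n
    · exact ⟨n, le_rfl, hV n hn⟩
    · exact ⟨B n hn, (hB n hn).le, hV _ (hL n hn).isV_right⟩
  · intro n
    rcases n with _ | n
    · exact ⟨fun _ ↦ isV_zero, fun _ ↦ Or.inl rfl⟩
    · constructor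
      · intro hv
        by_contra hn
        rcases hv with h0 | h0
        · omega
        · have := lemA n hn
          simp only [Nat.add_sub_cancel] at h0
          have h3 : h (n + 1 + 1) = h (n + 2) := rfl
          omega
      · intro hn
        right
        have := lemB n hn
        simp only [Nat.add_sub_cancel]
        exact this

end GH.Comb
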