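import Pool.Agent.GH.Comb.Defs

set_option autoImplicit false

namespace GH.Comb

variable {f : ℕ → ℤ}

theorem isV_zero : IsV f 0 := by
  intro a b ha
  omega

theorem Block.isV_left {a b : ℕ} {l : ℚ} (h : Block f a b l) : IsV f a := by
  intro x y hx hy
  have h1 := h.gtl x hx
  have h2 := h.ge y
  have hx' : (0 : ℚ) < (a : ℚ) - x := by
    have : (x : ℚ) < a := by exact_mod_cast hx
    linarith
  have hy' : (0 : ℚ) < (y : ℚ) - a := by
    have : (a : ℚ) < y := by exact_mod_cast hy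
    linarith
  have h3 : ((f a : ℚ) - f x) * ((y : ℚ) - a) < (l * ((a : ℚ) - x)) * ((y : ℚ) - a) :=
    mul_lt_mul_of_pos_right (by linarith) hy'
  have h4 : (l * ((y : ℚ) - a)) * ((a : ℚ) - x) ≤ ((f y : ℚ) - f a) * ((a : ℚ) - x) :=
    mul_le_mul_of_nonneg_right (by linarith) hx'.le
  have h5 : ((f a : ℚ) - f x) * ((y : ℚ) - a) < ((f y : ℚ) - f a) * ((a : ℚ) - x) := by
    linarith
  exact_mod_cast h5

theorem Block.isV_right {a b : ℕ} {l : ℚ} (h : Block f a b l) : IsV f b := by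
  intro x y hx hy
  have h0 := h.eq
  have h1 := h.ge x
  have h2 := h.gtr y hy
  have hx' : (0 : ℚ) < (b : ℚ) - x := by
    have : (x : ℚ) < b := by exact_mod_cast hx
    linarith
  have hy' : (0 : ℚ) < (y : ℚ) - b := by
    have : (b : ℚ) < y := by exact_mod_cast hy
    linarith
  have h3 : ((f b : ℚ) - f x) * ((y : ℚ) - b) ≤ (l * ((b : ℚ) - x)) * ((y : ℚ) - b) :=
    mul_le_mul_of_nonneg_right (by linarith) hy'.le
  have h4 : (l * ((y : ℚ) - b)) * ((b : ℚ) - x) < ((f y : ℚ) - f b) * ((b : ℚ) - x) :=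
    mul_lt_mul_of_pos_right (by linarith) hx'
  have h5 : ((f b : ℚ) - f x) * ((y : ℚ) - b) < ((f y : ℚ) - f b) * ((b : ℚ) - x) := by
    linarith
  exact_mod_cast h5

theorem Block.not_isV {a b k : ℕ} {l : ℚ} (h : Block f a b l) (h1 : a < k) (h2 : k < b) :
    ¬ IsV f k := by
  intro hk
  have h3 := hk a b h1 h2
  have h0 := h.eq
  have h4 := h.ge k
  have hx' : (0 : ℚ) < (k : ℚ) - a := by
    have : (a : ℚ) < k := by exact_mod_cast h1
    linarith
  have hy' : (0 : ℚ) < (b : ℚ) - k := by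
    have : (k : ℚ) < b := by exact_mod_cast h2
    linarith
  have h5 : ((f k : ℚ) - f a) * ((b : ℚ) - k) < ((f b : ℚ) - f k) * ((k : ℚ) - a) := by
    exact_mod_cast h3
  have h6 : (l * ((k : ℚ) - a)) * ((b : ℚ) - k) ≤ ((f k : ℚ) - f a) * ((b : ℚ) - k) :=
    mul_le_mul_of_nonneg_right (by linarith) hy'.le
  have h7 : ((f b : ℚ) - f k) * ((k : ℚ) - a) ≤ (l * ((b : ℚ) - k)) * ((k : ℚ) - a) :=
    mul_le_mul_of_nonneg_right (by linarith) hx'.le
  linarith

/-- Two strict vertices with everything in between on or above the chord form a block. -/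
theorem block_of_isV {a b : ℕ} (hab : a + 2 ≤ b) (ha : IsV f a) (hb : IsV f b)
    (h : ∀ k : ℕ, a < k → k < b → (f b - f a) * ((k : ℤ) - a) ≤ (f k - f a) * ((b : ℤ) - a)) :
    ∃ l : ℚ, Block f a b l := by
  have hd : (0 : ℚ) < (b : ℚ) - a := by
    have : (a : ℚ) < b := by exact_mod_cast (by omega : a < b)
    linarith
  set l : ℚ := ((f b : ℚ) - f a) / ((b : ℚ) - a) with hl
  have hl' : l * ((b : ℚ) - a) = (f b : ℚ) - f a := div_mul_cancel₀ _ hd.ne'
  have hlt : ∀ k : ℕ, k < a → (f a : ℚ) + l * ((k : ℚ) - a) < f k := by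
    intro k hk
    have h1 := ha k b hk (by omega)
    have h2 : ((f a : ℚ) - f k) * ((b : ℚ) - a) < ((f b : ℚ) - f a) * ((a : ℚ) - k) := by
      exact_mod_cast h1
    rw [← hl'] at h2
    have h3 : ((f a : ℚ) - f k) * ((b : ℚ) - a) < (l * ((a : ℚ) - k)) * ((b : ℚ) - a) := by
      linarith
    have h4 := lt_of_mul_lt_mul_right h3 hd.le
    linarith
  have hgt : ∀ k : ℕ, b < k → (f a : ℚ) + l * ((k : ℚ) - a) < f k := by
    intro k hk
    have h1 := hb a k (by omega) hk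
    have h2 : ((f b : ℚ) - f a) * ((k : ℚ) - b) < ((f k : ℚ) - f b) * ((b : ℚ) - a) := by
      exact_mod_cast h1
    rw [← hl'] at h2
    have h3 : (l * ((k : ℚ) - b)) * ((b : ℚ) - a) < ((f k : ℚ) - f b) * ((b : ℚ) - a) := by
      linarith
    have h4 := lt_of_mul_lt_mul_right h3 hd.le
    linarith
  refine ⟨l, hab, by linarith, fun k ↦ ?_, hlt, hgt⟩
  rcases lt_trichotomy k a with h1 | h1 | h1
  · exact (hlt k h1).le
  · rw [h1]
    simp
  · rcases lt_trichotomy k b with h2 | h2 | h2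
    · have h3 := h k h1 h2
      have h4 : ((f b : ℚ) - f a) * ((k : ℚ) - a) ≤ ((f k : ℚ) - f a) * ((b : ℚ) - a) := by
        exact_mod_cast h3
      rw [← hl'] at h4
      have h5 : (l * ((k : ℚ) - a)) * ((b : ℚ) - a) ≤ ((f k : ℚ) - f a) * ((b : ℚ) - a) := by
        linarith
      have h6 := le_of_mul_le_mul_right h5 hd
      linarith
    · rw [h2]
      linarith
    · exact (hgt k h2).le

end GH.Comb
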