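import Pool.Agent.GH.Comb.KinkC

namespace GH.Comb

theorem kk_add_le {T : ℤ} (hT : 0 < T) (x y : ℤ) : x / T + y / T ≤ (x + y) / T := by
  rw [Int.le_ediv_iff_mul_le hT]
  have h1 := Int.ediv_mul_le x hT.ne'
  have h2 := Int.ediv_mul_le y hT.ne'
  linarith

theorem kk_add_ge {T : ℤ} (hT : 0 < T) (x y : ℤ) : (x + y) / T ≤ x / T + y / T + 1 := by
  have h : (x + y) / T < x / T + y / T + 2 := by
    rw [Int.ediv_lt_iff_lt_mul hT]
    have h1 := Int.lt_ediv_add_one_mul_self x hT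
    have h2 := Int.lt_ediv_add_one_mul_self y hT
    linarith
  omega

theorem kk_sum (e m k : ℤ) : XX e m k + YY e m k = m - 2 + 2 * e := by
  unfold XX YY
  ring

/-- `g` takes at most two values, which differ by one. -/
theorem gg_le {e m : ℤ} (he : e = 0 ∨ e = 1) (ν : ℕ) (k k' : ℤ) :
    gg e m ν k ≤ gg e m ν k' + 1 := by
  rw [gg_eq he, gg_eq he]
  have hT := kc_pos (ν + 1)
  have h1 := kk_add_ge hT (XX e m k) (YY e m k)
  have h2 := kk_add_le hT (XX e m k') (YY e m k')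
  rw [kk_sum] at h1 h2
  omega

theorem gg_const {e m : ℤ} (he : e = 0 ∨ e = 1) {ν : ℕ} {k1 k3 : ℤ} (h1 : m ≤ 2 * k1)
    (h13 : k1 ≤ k3) (hn : XX e m k3 / 2 ^ (ν + 1) = YY e m k3 / 2 ^ (ν + 1)) :
    gg e m ν k1 = gg e m ν k3 := by
  rw [gg_eq he, gg_eq he]
  have a1 : YY e m k3 / 2 ^ (ν + 1) ≤ YY e m k1 / 2 ^ (ν + 1) := by
    apply kc_mono
    unfold YY
    omega
  have a2 : YY e m k1 / 2 ^ (ν + 1) ≤ XX e m k1 / 2 ^ (ν + 1) := by
    apply kc_mono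
    unfold YY XX
    omega
  have a3 : XX e m k1 / 2 ^ (ν + 1) ≤ XX e m k3 / 2 ^ (ν + 1) := by
    apply kc_mono
    unfold XX
    omega
  omega

/-- If `g` changes between `k1` and `k3` then (C') holds for every `k ≥ k3`. -/
theorem kinkC' {e m : ℤ} (he : e = 0 ∨ e = 1) {ν : ℕ} {k1 k3 k : ℤ} (h1 : m ≤ 2 * k1)
    (h13 : k1 ≤ k3) (h3 : k3 ≤ k) (hk : m < 2 * k) (hg : gg e m ν k1 ≠ gg e m ν k3) :
    2 ≤ inc e m ν k - inc e m ν (m - k) := by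
  have hne : XX e m k3 / 2 ^ (ν + 1) ≠ YY e m k3 / 2 ^ (ν + 1) := fun h =>
    hg (gg_const he h1 h13 h)
  have a1 : YY e m k3 / 2 ^ (ν + 1) ≤ XX e m k3 / 2 ^ (ν + 1) := by
    apply kc_mono
    unfold YY XX
    omega
  have a2 : YY e m k / 2 ^ (ν + 1) ≤ YY e m k3 / 2 ^ (ν + 1) := by
    apply kc_mono
    unfold YY
    omega
  have a3 : XX e m k3 / 2 ^ (ν + 1) ≤ XX e m k / 2 ^ (ν + 1) := by
    apply kc_mono
    unfold XX
    omega
  have hne' : XX e m k / 2 ^ (ν + 1) ≠ YY e m k / 2 ^ (ν + 1) := by omega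
  have hne2 := kc_ne hne' (Nat.le_succ ν)
  rcases Nat.eq_zero_or_pos ν with h0 | h0
  · subst h0
    unfold inc
    simp only [Finset.Icc_eq_empty_of_lt (show (0 : ℕ) < 1 by norm_num), Finset.sum_empty]
    omega
  · exact kinkC he h0 hk hne2

theorem gg_le_max {e m : ℤ} (he : e = 0 ∨ e = 1) (ν : ℕ) (k : ℤ) (hm : 2 ≤ m) :
    gg e m ν k ≤ 4 * m + 1 := by
  rw [gg_eq he]
  have hT := kc_pos (ν + 1)
  have h1 := kk_add_ge hT (XX e m k) (YY e m k)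
  rw [kk_sum] at h1
  have h2 : 0 ≤ (m - 2 + 2 * e) / 2 ^ (ν + 1) := Int.ediv_nonneg (by omega) hT.le
  omega

/-- `g` is even at the two indices nearest to the centre when there is no kink. -/
theorem gg_even {e m : ℤ} (he : e = 0 ∨ e = 1) {ν : ℕ} {k : ℤ} (h1 : m ≤ 2 * k)
    (h13 : 2 * k ≤ m + 1) (hn : XX e m k / 2 ^ (ν + 1) = YY e m k / 2 ^ (ν + 1)) :
    Even (gg e m ν k) := by
  rw [gg_eq he, hn]
  exact ⟨2 * m - 1 + e - YY e m k / 2 ^ (ν + 1), by ring⟩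

end GH.Comb
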