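import Pool.Agent.GH.Comb.FloorG

/-!
# GH-COMB: the kink lemma (C') and the size of the increments beyond the centre
-/

namespace GH.Comb

theorem kc_sum (n : ℕ → ℤ) (ν : ℕ) (hν : 1 ≤ ν) (h : ∀ s, 1 ≤ s → s ≤ ν → 1 ≤ n s) :
    n 1 + n (ν + 1) - 2 ≤ ∑ s ∈ Finset.Icc 1 ν, (n s + n (s + 1) - 2) := by
  induction ν, hν using Nat.le_induction with
  | base => simp
  | succ ν hν ih =>
    rw [Finset.sum_Icc_succ_top (by omega)]
    have h1 := ih fun s h1 h2 => h s h1 (by omega)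
    have h2 := h (ν + 1) (by omega) le_rfl
    linarith

theorem kc_pos (s : ℕ) : (0 : ℤ) < 2 ^ s := by positivity

theorem kc_mono {X Y : ℤ} (h : Y ≤ X) (s : ℕ) : Y / 2 ^ s ≤ X / 2 ^ s :=
  Int.ediv_le_ediv (kc_pos s) h

theorem kc_ne {X Y : ℤ} {ν : ℕ} (hn : X / 2 ^ ν ≠ Y / 2 ^ ν) {s : ℕ} (hs : s ≤ ν) :
    X / 2 ^ s ≠ Y / 2 ^ s := by
  intro h
  apply hn
  obtain ⟨t, rfl⟩ := Nat.exists_eq_add_of_le hs
  rw [pow_add, ← Int.ediv_ediv_of_nonneg (kc_pos s).le, ← Int.ediv_ediv_of_nonneg (kc_pos s).le, h]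

/-- (C'). -/
theorem kinkC {e m : ℤ} (he : e = 0 ∨ e = 1) {ν : ℕ} (hν : 1 ≤ ν) {k : ℤ} (hk : m < 2 * k)
    (hn : XX e m k / 2 ^ ν ≠ YY e m k / 2 ^ ν) :
    2 ≤ inc e m ν k - inc e m ν (m - k) := by
  rw [inc_sub]
  set q : ℤ := 2 * k - m with hq
  have hq1 : 1 ≤ q := by omega
  have hXY : XX e m k = YY e m k + 3 * q := by
    unfold XX YY
    omega
  have hle : YY e m k ≤ XX e m k := by omega
  set n : ℕ → ℤ := fun s => XX e m k / 2 ^ s - YY e m k / 2 ^ s with hndef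
  have hn1 : ∀ s, 1 ≤ s → s ≤ ν → 1 ≤ n s := by
    intro s _ h2
    have h3 := kc_mono hle s
    have h4 := kc_ne hn h2
    simp only [hndef]
    omega
  have hn0 : 0 ≤ n (ν + 1) := by
    have h3 := kc_mono hle (ν + 1)
    simp only [hndef]
    omega
  have hs := kc_sum n ν hν hn1
  have e1 : ∑ s ∈ Finset.Icc 1 ν, ((XX e m k / 2 ^ s - YY e m k / 2 ^ s)
        + (XX e m k / 2 ^ (s + 1) - YY e m k / 2 ^ (s + 1))
        - 2 * (q / 2 ^ s) - 2 * ((q - 1) / 2 ^ s) - 2) =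
      ∑ s ∈ Finset.Icc 1 ν, (n s + n (s + 1) - 2) - 2 * ∑ s ∈ Finset.Icc 1 ν, q / 2 ^ s -
        2 * ∑ s ∈ Finset.Icc 1 ν, (q - 1) / 2 ^ s := by
    rw [Finset.mul_sum, Finset.mul_sum, ← Finset.sum_sub_distrib, ← Finset.sum_sub_distrib]
    refine Finset.sum_congr rfl fun s _ => ?_
    simp only [hndef]
    ring
  rw [e1]
  have hb1 : n 1 = XX e m k / 2 - YY e m k / 2 := by simp [hndef]
  have s1 := sum_div_le hq1 ν
  rcases eq_or_lt_of_le hq1 with h | h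
  · have s2 : ∑ s ∈ Finset.Icc 1 ν, (q - 1) / 2 ^ s = 0 := by
      refine Finset.sum_eq_zero fun s _ => ?_
      rw [← h, sub_self, Int.zero_ediv]
    rw [s2]
    omega
  · have s2 := sum_div_le (x := q - 1) (by omega) ν
    omega

theorem inc_big {e m : ℤ} (he : e = 0 ∨ e = 1) (ν : ℕ) {b : ℤ} (hm : 2 ≤ m) (hb : m ≤ b) :
    2 * m + 2 ≤ inc e m ν b := by
  have h1 : ∀ s ∈ Finset.Icc 1 ν, -((2 * b - m - 1) / 2 ^ s) ≤ zz e m s b := by
    intro s _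
    rw [zz_center]
    have h2 : (2 * b - m) / 2 ^ s ≤ XX e m b / 2 ^ s := by
      apply kc_mono
      unfold XX
      omega
    have h3 : YY e m b / 2 ^ (s + 1) ≤ -1 := by
      have h4 : YY e m b < 0 := by
        unfold YY
        omega
      have h5 := Int.ediv_neg_of_neg_of_pos h4 (kc_pos (s + 1))
      omega
    omega
  have h2 := Finset.sum_le_sum h1
  rw [Finset.sum_neg_distrib] at h2
  have h3 := sum_div_le (x := 2 * b - m - 1) (by omega) ν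
  unfold inc
  omega

end GH.Comb
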